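import Mathlib

/-!
Growth of the factorial and the sum of `1 / log n!` (job SL-D).
-/

set_option autoImplicit false

namespace Pool.Agent.TH915.SL

open Filter Topology Finset

/-- `log n! - log m! ≥ (n - m) (log n - 1)`. -/
theorem fact_key (m n : ℕ) (h : m ≤ n) :
    ((n : ℝ) - m) * (Real.log n - 1) ≤
      Real.log (n.factorial : ℝ) - Real.log (m.factorial : ℝ) := by
  induction n, h using Nat.le_induction with
  | base => simp
  | succ n hmn ih =>
    have hfac : Real.log ((n + 1).factorial : ℝ)
        = Real.log ((n : ℝ) + 1) + Real.log (n.factorial : ℝ) := by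
      rw [Nat.factorial_succ, Nat.cast_mul,
        Real.log_mul (by positivity) (by positivity)]
      push_cast
      rfl
    rw [hfac]
    push_cast
    have hnm : (m : ℝ) ≤ n := by exact_mod_cast hmn
    rcases Nat.eq_zero_or_pos n with h0 | h0
    · subst h0
      have hm0 : m = 0 := by omega
      subst hm0
      simp
    · have hn : (0 : ℝ) < n := by exact_mod_cast h0
      have hlog : Real.log ((n : ℝ) + 1) - Real.log n ≤ 1 / n := by
        rw [← Real.log_div (by positivity) hn.ne']
        have h2 := Real.log_le_sub_one_of_pos (x := ((n : ℝ) + 1) / n) (by positivity)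
        have h3 : ((n : ℝ) + 1) / n - 1 = 1 / n := by field_simp; ring
        linarith
      have hm0 : (0 : ℝ) ≤ m := Nat.cast_nonneg m
      have h5 : ((n : ℝ) - m) * (Real.log ((n : ℝ) + 1) - Real.log n) ≤ 1 := by
        calc ((n : ℝ) - m) * (Real.log ((n : ℝ) + 1) - Real.log n)
            ≤ ((n : ℝ) - m) * (1 / n) :=
              mul_le_mul_of_nonneg_left hlog (by linarith)
          _ ≤ n * (1 / n) := mul_le_mul_of_nonneg_right (by linarith) (by positivity)
          _ = 1 := by field_simp
      nlinarith [h5, ih]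

theorem two_le_log {x : ℝ} (hx : 8 ≤ x) : 2 ≤ Real.log x := by
  have h8 : Real.log 8 ≤ Real.log x := Real.log_le_log (by norm_num) hx
  have h82 : Real.log 8 = 3 * Real.log 2 := by
    rw [show (8 : ℝ) = 2 ^ 3 by norm_num, Real.log_pow]
    norm_num
  have := Real.log_two_gt_d9
  linarith

theorem fact_growth : ∃ n0 : ℕ, 2 ≤ n0 ∧ ∀ m n : ℕ, n0 ≤ n → m < n →
    (1 / 2 : ℝ) * (((n - m : ℕ) : ℝ) * Real.log n) ≤
      Real.log (n.factorial : ℝ) - Real.log (m.factorial : ℝ) := by
  refine ⟨8, by norm_num, fun m n hn hmn => ?_⟩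
  have h1 := fact_key m n hmn.le
  have hx : (8 : ℝ) ≤ n := by exact_mod_cast hn
  have h2 := two_le_log hx
  have h3 : (m : ℝ) ≤ n := by exact_mod_cast hmn.le
  rw [Nat.cast_sub hmn.le]
  nlinarith [mul_nonneg (sub_nonneg.mpr h3) (sub_nonneg.mpr h2)]

theorem fact_upper : ∀ n : ℕ, Real.log (n.factorial : ℝ) ≤ (n : ℝ) * Real.log n := by
  intro n
  have h : (n.factorial : ℝ) ≤ (n : ℝ) ^ n := by exact_mod_cast Nat.factorial_le_pow n
  calc Real.log (n.factorial : ℝ) ≤ Real.log ((n : ℝ) ^ n) :=
        Real.log_le_log (by positivity) h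
    _ = (n : ℝ) * Real.log n := Real.log_pow n n

/-- one step of the comparison of `1 / log n!` with `log log n - log log (n - 1)` -/
theorem fact_step (N : ℕ) (hN : 8 ≤ N) :
    1 / Real.log ((N + 1).factorial : ℝ)
        - (Real.log (Real.log ((N : ℝ) + 1)) - Real.log (Real.log N))
        ≤ 2 / Real.log N - 2 / Real.log ((N : ℝ) + 1) ∧
    1 / (((N : ℝ) + 1) * Real.log ((N : ℝ) + 1)) - 1 / ((N : ℝ) * Real.log N) ≤
      1 / Real.log ((N + 1).factorial : ℝ)
        - (Real.log (Real.log ((N : ℝ) + 1)) - Real.log (Real.log N)) := by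
  have hx : (8 : ℝ) ≤ N := by exact_mod_cast hN
  have ha := two_le_log hx
  have hFu := fact_upper (N + 1)
  have hFl := fact_key 0 (N + 1) (Nat.zero_le _)
  push_cast at hFu hFl
  simp only [Nat.factorial_zero, Nat.cast_one, Real.log_one, sub_zero] at hFl
  set F := Real.log ((N + 1).factorial : ℝ) with hF
  set x : ℝ := (N : ℝ) with hxdef
  have hab1 : Real.log (x + 1) - Real.log x ≤ 1 / x := by
    rw [← Real.log_div (by positivity) (by positivity)]
    have h2 := Real.log_le_sub_one_of_pos (x := (x + 1) / x) (by positivity)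
    have h3 : (x + 1) / x - 1 = 1 / x := by field_simp; ring
    linarith
  have hab2 : 1 / (x + 1) ≤ Real.log (x + 1) - Real.log x := by
    have h2 := Real.log_le_sub_one_of_pos (x := x / (x + 1)) (by positivity)
    rw [Real.log_div (by positivity) (by positivity)] at h2
    have h3 : x / (x + 1) - 1 = - (1 / (x + 1)) := by field_simp; ring
    linarith
  set a := Real.log x with hadef
  set b := Real.log (x + 1) with hbdef
  have hx0 : 0 < x := by linarith
  have ha0 : 0 < a := by linarith
  have hab : a ≤ b := by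
    have : 0 < 1 / (x + 1) := by positivity
    linarith
  have hb0 : 0 < b := by linarith
  have hL1 : Real.log b - Real.log a ≤ 1 / (x * a) := by
    rw [← Real.log_div hb0.ne' ha0.ne']
    have h2 := Real.log_le_sub_one_of_pos (x := b / a) (by positivity)
    have h3 : b / a - 1 = (b - a) / a := by field_simp
    have h4 : (b - a) / a ≤ (1 / x) / a := div_le_div_of_nonneg_right hab1 ha0.le
    have h5 : (1 / x) / a = 1 / (x * a) := by field_simp
    linarith
  have hL2 : 1 / ((x + 1) * b) ≤ Real.log b - Real.log a := by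
    have h2 := Real.log_le_sub_one_of_pos (x := a / b) (by positivity)
    rw [Real.log_div ha0.ne' hb0.ne'] at h2
    have h3 : a / b - 1 = - ((b - a) / b) := by field_simp; ring
    have h4 : (1 / (x + 1)) / b ≤ (b - a) / b := div_le_div_of_nonneg_right hab2 hb0.le
    have h5 : (1 / (x + 1)) / b = 1 / ((x + 1) * b) := by field_simp
    linarith
  have hF0 : 0 < (x + 1) * (b - 1) := by
    apply mul_pos <;> linarith
  have hFpos : 0 < F := lt_of_lt_of_le hF0 hFl
  have hF1 : 1 / F ≤ 1 / ((x + 1) * (b - 1)) := one_div_le_one_div_of_le hF0 hFl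
  have hF2 : 1 / ((x + 1) * b) ≤ 1 / F := one_div_le_one_div_of_le hFpos hFu
  constructor
  · -- upper step
    have h6 : 1 / ((x + 1) * (b - 1)) - 1 / ((x + 1) * b) ≤ 2 * ((1 / (x + 1)) / (a * b)) := by
      have hb1 : 0 < b - 1 := by linarith
      have h7 : 1 / ((x + 1) * (b - 1)) - 1 / ((x + 1) * b)
          = 1 / ((x + 1) * b * (b - 1)) := by
        field_simp
        ring
      have h8 : 2 * ((1 / (x + 1)) / (a * b)) = 1 / ((x + 1) * b * (a / 2)) := by
        field_simp
      rw [h7, h8]
      apply one_div_le_one_div_of_le (by positivity)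
      apply mul_le_mul_of_nonneg_left _ (by positivity)
      linarith
    have h9 : 2 * ((1 / (x + 1)) / (a * b)) ≤ 2 * ((b - a) / (a * b)) := by
      have : (1 / (x + 1)) / (a * b) ≤ (b - a) / (a * b) :=
        div_le_div_of_nonneg_right hab2 (by positivity)
      linarith
    have h10 : 2 * ((b - a) / (a * b)) = 2 / a - 2 / b := by
      field_simp
    linarith
  · linarith

/-- the sum of `1 / log n!` -/
theorem fact_sum : ∃ C : ℝ, 0 < C ∧ ∀ N : ℕ, 3 ≤ N →
    |∑ n ∈ range (N + 1), 1 / Real.log (n.factorial : ℝ) - Real.log (Real.log N)| ≤ C := by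
  set D : ℕ → ℝ := fun N =>
    ∑ n ∈ range (N + 1), 1 / Real.log (n.factorial : ℝ) - Real.log (Real.log N) with hD
  have hstep : ∀ N : ℕ, 8 ≤ N →
      D N + 2 / Real.log N ≤ D 8 + 2 / Real.log (8 : ℕ) ∧
      D 8 - 1 / (((8 : ℕ) : ℝ) * Real.log (8 : ℕ)) ≤ D N - 1 / ((N : ℝ) * Real.log N) := by
    intro N hN
    induction N, hN using Nat.le_induction with
    | base => exact ⟨le_rfl, le_rfl⟩
    | succ N hN ih =>
      obtain ⟨h1, h2⟩ := ih
      obtain ⟨h3, h4⟩ := fact_step N hN
      have hDs : D (N + 1) = D N + (1 / Real.log ((N + 1).factorial : ℝ)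
          - (Real.log (Real.log ((N : ℝ) + 1)) - Real.log (Real.log N))) := by
        simp only [hD]
        rw [Finset.sum_range_succ _ (N + 1)]
        push_cast
        ring
      rw [hDs]
      push_cast
      push_cast at h1 h2
      constructor <;> linarith
  refine ⟨(∑ k ∈ range 9, |D k|) + 2, ?_, fun N _ => ?_⟩
  · have : 0 ≤ ∑ k ∈ range 9, |D k| := Finset.sum_nonneg fun k _ => abs_nonneg _
    linarith
  · change |D N| ≤ _
    rcases Nat.lt_or_ge N 8 with h | h
    · have h1 : |D N| ≤ ∑ k ∈ range 9, |D k| :=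
        Finset.single_le_sum (f := fun k => |D k|) (fun k _ => abs_nonneg _)
          (Finset.mem_range.mpr (by omega))
      linarith
    · have h8 : |D 8| ≤ ∑ k ∈ range 9, |D k| :=
        Finset.single_le_sum (f := fun k => |D k|) (fun k _ => abs_nonneg _)
          (Finset.mem_range.mpr (by omega))
      obtain ⟨h1, h2⟩ := hstep N h
      have hl8 : 2 ≤ Real.log ((8 : ℕ) : ℝ) := two_le_log (by norm_num)
      have hlN : 2 ≤ Real.log (N : ℝ) := two_le_log (by exact_mod_cast h)
      have hN8 : (8 : ℝ) ≤ N := by exact_mod_cast h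
      have e1 : 2 / Real.log ((8 : ℕ) : ℝ) ≤ 1 := by
        rw [div_le_one (by linarith)]; exact hl8
      have e2 : 0 ≤ 2 / Real.log (N : ℝ) := by
        apply div_nonneg (by norm_num) (by linarith)
      have e3 : 0 ≤ 1 / ((N : ℝ) * Real.log N) := by
        apply div_nonneg (by norm_num)
        apply mul_nonneg <;> linarith
      have e4 : 1 / (((8 : ℕ) : ℝ) * Real.log (8 : ℕ)) ≤ 1 := by
        rw [div_le_one (by positivity)]
        push_cast
        push_cast at hl8
        nlinarith
      have e5 := abs_le.mp h8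
      rw [abs_le]
      constructor <;> linarith [e5.1, e5.2]

end Pool.Agent.TH915.SL
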