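import Mathlib
set_option autoImplicit false
namespace Pool.Agent.TH915.SL
open Filter Topology Finset

theorem sum_inv_le (n : ℕ) (hn : 1 ≤ n) : ∑ m ∈ range n, 1 / (m : ℝ) ≤ 1 + Real.log n := by
  obtain ⟨k, rfl⟩ : ∃ k, n = k + 1 := ⟨n - 1, by omega⟩
  rw [Finset.sum_range_succ']
  have h := harmonic_le_one_add_log k
  have h2 : ((harmonic k : ℚ) : ℝ) = ∑ i ∈ range k, 1 / (((i + 1 : ℕ)) : ℝ) := by
    unfold harmonic
    push_cast
    apply Finset.sum_congr rfl
    intro i _
    rw [one_div]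
  rw [h2] at h
  have h3 : Real.log k ≤ Real.log ((k + 1 : ℕ) : ℝ) := by
    rcases Nat.eq_zero_or_pos k with rfl | hk
    · simp
    · apply Real.log_le_log (by exact_mod_cast hk)
      push_cast; linarith
  simp only [Nat.cast_zero, div_zero, add_zero]
  linarith

theorem sum_inv_le' (n : ℕ) : ∑ m ∈ range n, 1 / (((n - m : ℕ) : ℕ) : ℝ) ≤ 1 + Real.log n := by
  have h := harmonic_le_one_add_log n
  have h2 : ((harmonic n : ℚ) : ℝ) = ∑ i ∈ range n, 1 / (((i + 1 : ℕ)) : ℝ) := by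
    unfold harmonic
    push_cast
    apply Finset.sum_congr rfl
    intro i _
    rw [one_div]
  rw [h2] at h
  rw [← Finset.sum_range_reflect] at h
  refine le_trans (le_of_eq ?_) h
  apply Finset.sum_congr rfl
  intro m hm
  have hm' := Finset.mem_range.1 hm
  congr 2
  omega

/-- the near pairs -/
theorem near_sum : ∃ K : ℝ, 0 < K ∧ ∀ n : ℕ, 2 ≤ n →
    ∑ m ∈ range n, (if 2 ≤ m ∧ n < m ^ 4 then
      1 / ((m : ℝ) * Real.log m) * (1 / (((n - m : ℕ) : ℝ) * Real.log n)) else 0) ≤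
      K * (1 / ((n : ℝ) * Real.log n)) := by
  have hl2 : 0 < Real.log 2 := Real.log_pos (by norm_num)
  refine ⟨8 * (1 + 1 / Real.log 2), by positivity, ?_⟩
  intro n hn
  have hn0 : (0 : ℝ) < n := by exact_mod_cast (by omega : 0 < n)
  have hnl : Real.log 2 ≤ Real.log n := Real.log_le_log (by norm_num) (by exact_mod_cast hn)
  have hl : 0 < Real.log n := lt_of_lt_of_le hl2 hnl
  have key : ∀ m ∈ range n, (if 2 ≤ m ∧ n < m ^ 4 then
      1 / ((m : ℝ) * Real.log m) * (1 / (((n - m : ℕ) : ℝ) * Real.log n)) else 0) ≤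
      4 / (n * Real.log n ^ 2) * (1 / (m : ℝ) + 1 / (((n - m : ℕ) : ℕ) : ℝ)) := by
    intro m hm
    have hmn := Finset.mem_range.1 hm
    split_ifs with h
    · obtain ⟨h1, h2⟩ := h
      have hm0 : (0 : ℝ) < m := by exact_mod_cast (by omega : 0 < m)
      have hd0 : (0 : ℝ) < ((n - m : ℕ) : ℝ) := by exact_mod_cast (by omega : 0 < n - m)
      have hsum : (m : ℝ) + ((n - m : ℕ) : ℝ) = n := by
        rw [Nat.cast_sub hmn.le]; ring
      have hlm : Real.log n ≤ 4 * Real.log m := by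
        have h3 : Real.log n ≤ Real.log ((m : ℝ) ^ 4) :=
          Real.log_le_log hn0 (by exact_mod_cast h2.le)
        rwa [Real.log_pow] at h3
      have hlm0 : 0 < Real.log m := by linarith
      have e1 : 1 / ((m : ℝ) * Real.log m) * (1 / (((n - m : ℕ) : ℝ) * Real.log n)) =
          1 / (n * Real.log m * Real.log n) * (1 / (m : ℝ) + 1 / (((n - m : ℕ) : ℕ) : ℝ)) := by
        rw [← hsum]
        have : (m : ℝ) + ((n - m : ℕ) : ℝ) ≠ 0 := by positivity
        field_simp
        ring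
      rw [e1]
      apply mul_le_mul_of_nonneg_right _ (by positivity)
      rw [div_le_div_iff₀ (by positivity) (by positivity)]
      have : n * Real.log n * Real.log n ≤ n * Real.log n * (4 * Real.log m) :=
        mul_le_mul_of_nonneg_left hlm (by positivity)
      nlinarith
    · positivity
  refine (Finset.sum_le_sum key).trans ?_
  rw [← Finset.mul_sum, Finset.sum_add_distrib]
  have s1 := sum_inv_le n (by omega)
  have s2 := sum_inv_le' n
  calc 4 / (n * Real.log n ^ 2) * (∑ m ∈ range n, 1 / (m : ℝ) +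
        ∑ m ∈ range n, 1 / (((n - m : ℕ) : ℕ) : ℝ))
      ≤ 4 / (n * Real.log n ^ 2) * ((1 + Real.log n) + (1 + Real.log n)) :=
        mul_le_mul_of_nonneg_left (add_le_add s1 s2) (by positivity)
    _ = 8 * (1 + 1 / Real.log n) * (1 / ((n : ℝ) * Real.log n)) := by
        field_simp
        ring
    _ ≤ 8 * (1 + 1 / Real.log 2) * (1 / ((n : ℝ) * Real.log n)) := by
        apply mul_le_mul_of_nonneg_right _ (by positivity)
        have : 1 / Real.log n ≤ 1 / Real.log 2 := one_div_le_one_div_of_le hl2 hnl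
        linarith

theorem loglog_up (n : ℕ) (hn : 2 ≤ n) :
    Real.log (Real.log ((n + 1 : ℕ) : ℝ)) - Real.log (Real.log n) ≤ 1 / ((n : ℝ) * Real.log n) := by
  have hn0 : (0 : ℝ) < n := by exact_mod_cast (by omega : 0 < n)
  have hn1 : (1 : ℝ) < n := by exact_mod_cast (by omega : 1 < n)
  have hl : 0 < Real.log n := Real.log_pos hn1
  have hl' : 0 < Real.log ((n + 1 : ℕ) : ℝ) := Real.log_pos (by push_cast; linarith)
  rw [← Real.log_div hl'.ne' hl.ne']
  have h1 := Real.log_le_sub_one_of_pos (div_pos hl' hl)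
  have h2 : Real.log ((n + 1 : ℕ) : ℝ) - Real.log n ≤ 1 / n := by
    rw [← Real.log_div (by positivity) hn0.ne']
    have h3 := Real.log_le_sub_one_of_pos (show (0 : ℝ) < ((n + 1 : ℕ) : ℝ) / n by positivity)
    have h4 : ((n + 1 : ℕ) : ℝ) / n - 1 = 1 / n := by
      push_cast; field_simp; ring
    linarith
  have h5 : Real.log ((n + 1 : ℕ) : ℝ) / Real.log n - 1 =
      (Real.log ((n + 1 : ℕ) : ℝ) - Real.log n) / Real.log n := by
    field_simp
  have h6 : (Real.log ((n + 1 : ℕ) : ℝ) - Real.log n) / Real.log n ≤ (1 / n) / Real.log n :=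
    div_le_div_of_nonneg_right h2 hl.le
  have h7 : (1 / (n : ℝ)) / Real.log n = 1 / ((n : ℝ) * Real.log n) := by
    rw [div_div]
  linarith

theorem loglog_lo (n : ℕ) (hn : 2 ≤ n) :
    1 / (((n + 1 : ℕ) : ℝ) * Real.log ((n + 1 : ℕ) : ℝ)) ≤
      Real.log (Real.log ((n + 1 : ℕ) : ℝ)) - Real.log (Real.log n) := by
  have hn0 : (0 : ℝ) < n := by exact_mod_cast (by omega : 0 < n)
  have hn1 : (1 : ℝ) < n := by exact_mod_cast (by omega : 1 < n)
  have hN0 : (0 : ℝ) < ((n + 1 : ℕ) : ℝ) := by positivity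
  have hl : 0 < Real.log n := Real.log_pos hn1
  have hl' : 0 < Real.log ((n + 1 : ℕ) : ℝ) := Real.log_pos (by push_cast; linarith)
  have h1 := Real.log_le_sub_one_of_pos (div_pos hl hl')
  rw [Real.log_div hl.ne' hl'.ne'] at h1
  have h2 : 1 / ((n + 1 : ℕ) : ℝ) ≤ Real.log ((n + 1 : ℕ) : ℝ) - Real.log n := by
    have h3 := Real.log_le_sub_one_of_pos (show (0 : ℝ) < n / ((n + 1 : ℕ) : ℝ) by positivity)
    rw [Real.log_div hn0.ne' hN0.ne'] at h3
    have h4 : n / ((n + 1 : ℕ) : ℝ) - 1 = -(1 / ((n + 1 : ℕ) : ℝ)) := by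
      push_cast; field_simp; ring
    linarith
  have h5 : Real.log n / Real.log ((n + 1 : ℕ) : ℝ) - 1 =
      -((Real.log ((n + 1 : ℕ) : ℝ) - Real.log n) / Real.log ((n + 1 : ℕ) : ℝ)) := by
    field_simp
    ring
  have h6 : (1 / ((n + 1 : ℕ) : ℝ)) / Real.log ((n + 1 : ℕ) : ℝ) ≤
      (Real.log ((n + 1 : ℕ) : ℝ) - Real.log n) / Real.log ((n + 1 : ℕ) : ℝ) :=
    div_le_div_of_nonneg_right h2 hl'.le
  have h7 : (1 / ((n + 1 : ℕ) : ℝ)) / Real.log ((n + 1 : ℕ) : ℝ) =
      1 / (((n + 1 : ℕ) : ℝ) * Real.log ((n + 1 : ℕ) : ℝ)) := by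
    rw [div_div]
  linarith

/-- the sum of `1 / (n log n)` -/
theorem sum_loglog : ∃ C : ℝ, 0 < C ∧ ∀ N : ℕ, 3 ≤ N →
    |∑ n ∈ range (N + 1), 1 / ((n : ℝ) * Real.log n) - Real.log (Real.log N)| ≤ C := by
  have hl2 : 0 < Real.log 2 := Real.log_pos (by norm_num)
  have s2 : ∑ n ∈ range (2 + 1), 1 / ((n : ℝ) * Real.log n) = 1 / (2 * Real.log 2) := by
    simp [Finset.sum_range_succ]
  have up : ∀ N : ℕ, 2 ≤ N → ∑ n ∈ range (N + 1), 1 / ((n : ℝ) * Real.log n) ≤
      1 / (2 * Real.log 2) + Real.log (Real.log N) - Real.log (Real.log 2) := by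
    intro N hN
    induction N, hN using Nat.le_induction with
    | base => rw [s2]; simp
    | succ N hN ih =>
      rw [Finset.sum_range_succ]
      have := loglog_lo N hN
      linarith
  have lo : ∀ N : ℕ, 2 ≤ N → Real.log (Real.log ((N + 1 : ℕ) : ℝ)) - Real.log (Real.log 2) ≤
      ∑ n ∈ range (N + 1), 1 / ((n : ℝ) * Real.log n) := by
    intro N hN
    induction N, hN using Nat.le_induction with
    | base =>
      rw [s2]
      have := loglog_up 2 (le_refl 2)
      push_cast at this ⊢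
      linarith
    | succ N hN ih =>
      rw [Finset.sum_range_succ]
      have := loglog_up (N + 1) (by omega)
      linarith
  refine ⟨1 / (2 * Real.log 2) + |Real.log (Real.log 2)|, by positivity, ?_⟩
  intro N hN
  have h1 := up N (by omega)
  have h2 := lo N (by omega)
  have hN0 : (0 : ℝ) < N := by exact_mod_cast (by omega : 0 < N)
  have hN1 : (1 : ℝ) < N := by exact_mod_cast (by omega : 1 < N)
  have h3 : Real.log (Real.log N) ≤ Real.log (Real.log ((N + 1 : ℕ) : ℝ)) := by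
    apply Real.log_le_log (Real.log_pos hN1)
    apply Real.log_le_log hN0
    push_cast; linarith
  have h4 : 0 < 1 / (2 * Real.log 2) := by positivity
  have h5 := neg_abs_le (Real.log (Real.log 2))
  have h6 := le_abs_self (Real.log (Real.log 2))
  rw [abs_le]
  constructor <;> linarith

end Pool.Agent.TH915.SL
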