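import Mathlib
import Pool.Agent.TH888.R.GK
set_option autoImplicit false
namespace Pool.Agent.TH915.SL
open Filter Topology MeasureTheory

/-- the gauge dominates shifted indices -/
theorem gauge_le {J : ℕ} {v : ℝ} (hJ : (J : ℝ) ≤ v) :
    Real.sqrt ((J : ℝ) + 2) * (1 + Real.log ((J : ℝ) + 2)) ^ 2 ≤
      8 * (Real.sqrt (1 + v) * (1 + Real.log (1 + v)) ^ 2) := by
  have hJ0 : (0 : ℝ) ≤ J := Nat.cast_nonneg J
  have hv0 : 0 ≤ v := hJ0.trans hJ
  have hl0 : 0 ≤ Real.log (1 + v) := Real.log_nonneg (by linarith)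
  have h1 : Real.sqrt ((J : ℝ) + 2) ≤ 2 * Real.sqrt (1 + v) := by
    rw [show (2 : ℝ) * Real.sqrt (1 + v) = Real.sqrt (4 * (1 + v)) by
      rw [Real.sqrt_mul (by norm_num), show (4 : ℝ) = 2 ^ 2 by norm_num,
        Real.sqrt_sq (by norm_num)]]
    exact Real.sqrt_le_sqrt (by linarith)
  have h2 : Real.log ((J : ℝ) + 2) ≤ 1 + Real.log (1 + v) := by
    have h3 : Real.log ((J : ℝ) + 2) ≤ Real.log (2 * (1 + v)) :=
      Real.log_le_log (by linarith) (by linarith)
    rw [Real.log_mul (by norm_num) (by linarith)] at h3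
    have h4 : Real.log 2 ≤ 1 := by
      have := Real.log_le_sub_one_of_pos (show (0 : ℝ) < 2 by norm_num)
      linarith
    linarith
  have h5 : 0 ≤ Real.log ((J : ℝ) + 2) := Real.log_nonneg (by linarith)
  have h6 : (1 + Real.log ((J : ℝ) + 2)) ^ 2 ≤ (2 * (1 + Real.log (1 + v))) ^ 2 :=
    pow_le_pow_left₀ (by linarith) (by linarith) 2
  calc Real.sqrt ((J : ℝ) + 2) * (1 + Real.log ((J : ℝ) + 2)) ^ 2
      ≤ (2 * Real.sqrt (1 + v)) * (2 * (1 + Real.log (1 + v))) ^ 2 :=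
        mul_le_mul h1 h6 (by positivity) (by positivity)
    _ = 8 * (Real.sqrt (1 + v) * (1 + Real.log (1 + v)) ^ 2) := by ring

theorem gauge_mono {a b : ℝ} (ha : 0 ≤ a) (hab : a ≤ b) :
    Real.sqrt (a + 1) * (1 + Real.log (a + 1)) ^ 2 ≤
      Real.sqrt (b + 1) * (1 + Real.log (b + 1)) ^ 2 := by
  have h1 : Real.sqrt (a + 1) ≤ Real.sqrt (b + 1) := Real.sqrt_le_sqrt (by linarith)
  have h2 : Real.log (a + 1) ≤ Real.log (b + 1) := Real.log_le_log (by linarith) (by linarith)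
  have h3 : 0 ≤ Real.log (a + 1) := Real.log_nonneg (by linarith)
  exact mul_le_mul h1 (pow_le_pow_left₀ (by linarith) (by linarith) 2) (by positivity)
    (Real.sqrt_nonneg _)

theorem gauge_one {v : ℝ} (hv : 0 ≤ v) :
    1 ≤ Real.sqrt (1 + v) * (1 + Real.log (1 + v)) ^ 2 := by
  have h1 : 1 ≤ Real.sqrt (1 + v) := by
    rw [Real.one_le_sqrt]
    linarith
  have h2 : 0 ≤ Real.log (1 + v) := Real.log_nonneg (by linarith)
  have h3 : 1 ≤ (1 + Real.log (1 + v)) ^ 2 := one_le_pow₀ (by linarith)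
  nlinarith

/-- an almost everywhere law with square root error from block variances -/
theorem sqrt_law {s t C : ℝ} (hC : 0 ≤ C) {f : ℕ → ℝ → ℝ} {r : ℕ → ℝ}
    (hf : ∀ n, Measurable (f n)) (hf0 : ∀ n x, 0 ≤ f n x) (hf1 : ∀ n x, f n x ≤ 1)
    (hr0 : ∀ n, 0 ≤ r n) (hr2 : ∀ n, r n ≤ 2)
    (hV : Tendsto (fun N => ∑ n ∈ Finset.range N, r n) atTop atTop) (P : ℕ)
    (hvar : ∀ M N : ℕ, P ≤ M → M ≤ N →
      ∫ x in Set.Ioc s t, (∑ n ∈ Finset.Ico M N, (f n x - r n)) ^ 2 ≤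
        C * ∑ n ∈ Finset.Ico M N, r n) :
    ∀ᵐ x : ℝ, x ∈ Set.Ioc s t → ∃ B : ℝ, 0 ≤ B ∧ ∀ N : ℕ,
      |∑ n ∈ Finset.range N, f n x - ∑ n ∈ Finset.range N, r n| ≤
        B * (Real.sqrt (1 + ∑ n ∈ Finset.range N, r n) *
          (1 + Real.log (1 + ∑ n ∈ Finset.range N, r n)) ^ 2) := by
  classical
  set V : ℕ → ℝ := fun N => ∑ n ∈ Finset.range N, r n with hVdef
  have hVmono : Monotone V := by
    intro a b hab
    exact Finset.sum_le_sum_of_subset_of_nonneg (Finset.range_mono hab) fun n _ _ => hr0 n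
  have hVsucc : ∀ N, V (N + 1) = V N + r N := fun N => Finset.sum_range_succ _ _
  have hV0 : ∀ N, 0 ≤ V N := fun N => Finset.sum_nonneg fun n _ => hr0 n
  have hex : ∀ j : ℕ, ∃ N : ℕ, P ≤ N ∧ V P + j ≤ V N := by
    intro j
    obtain ⟨N, hN⟩ := (hV.eventually_ge_atTop (V P + j)).exists_forall_of_atTop
    exact ⟨max P N, le_max_left _ _, hN _ (le_max_right _ _)⟩
  set nn : ℕ → ℕ := fun j => Nat.find (hex j) with hnn
  have hn1 : ∀ j, P ≤ nn j := fun j => (Nat.find_spec (hex j)).1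
  have hn2 : ∀ j : ℕ, V P + j ≤ V (nn j) := fun j => (Nat.find_spec (hex j)).2
  have hn3 : ∀ (j N : ℕ), P ≤ N → V P + j ≤ V N → nn j ≤ N := fun j N h1 h2 =>
    Nat.find_min' (hex j) ⟨h1, h2⟩
  have hn4 : ∀ j : ℕ, V (nn j) ≤ V P + j + 2 := by
    intro j
    rcases Nat.eq_or_lt_of_le (hn1 j) with h | h
    · rw [← h]
      have : (0 : ℝ) ≤ j := Nat.cast_nonneg j
      linarith
    · obtain ⟨k, hk⟩ : ∃ k, nn j = k + 1 := ⟨nn j - 1, by omega⟩
      have h1 : V k < V P + j := by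
        by_contra hcon
        push Not at hcon
        have := hn3 j k (by omega) hcon
        omega
      rw [hk, hVsucc]
      have := hr2 k
      linarith
  have hn5 : Monotone nn := by
    intro a b hab
    refine hn3 a (nn b) (hn1 b) ((?_ : V P + (a : ℝ) ≤ V P + b).trans (hn2 b))
    have : (a : ℝ) ≤ b := by exact_mod_cast hab
    linarith
  have hn0 : nn 0 = P := le_antisymm (hn3 0 P le_rfl (by simp)) (hn1 0)
  set Y : ℕ → ℝ → ℝ := fun j x => ∑ n ∈ Finset.Ico (nn j) (nn (j + 1)), (f n x - r n) with hY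
  have hYsum : ∀ (x : ℝ) (a b : ℕ), a ≤ b →
      ∑ j ∈ Finset.Ico a b, Y j x = ∑ n ∈ Finset.Ico (nn a) (nn b), (f n x - r n) := by
    intro x a b hab
    induction b, hab using Nat.le_induction with
    | base => simp
    | succ b hab ih =>
      rw [Finset.sum_Ico_succ_top hab, ih, hY]
      exact Finset.sum_Ico_consecutive _ (hn5 hab) (hn5 (Nat.le_succ b))
  have hIco : ∀ a b : ℕ, a ≤ b → ∑ n ∈ Finset.Ico a b, r n = V b - V a := fun a b hab =>
    Finset.sum_Ico_eq_sub _ hab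
  have hmeas : ∀ a b : ℕ, Measurable fun x => (∑ n ∈ Finset.Ico a b, (f n x - r n)) ^ 2 :=
    fun a b => (Finset.measurable_fun_sum _ fun n _ => (hf n).sub_const _).pow_const 2
  have hbd : ∀ (a b : ℕ) (x : ℝ), |∑ n ∈ Finset.Ico a b, (f n x - r n)| ≤
      3 * ((Finset.Ico a b).card : ℝ) := by
    intro a b x
    refine (Finset.abs_sum_le_sum_abs _ _).trans ?_
    have : ∀ n ∈ Finset.Ico a b, |f n x - r n| ≤ 3 := by
      intro n _
      rw [abs_le]
      have := hf0 n x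
      have := hf1 n x
      have := hr0 n
      have := hr2 n
      constructor <;> linarith
    refine (Finset.sum_le_sum this).trans ?_
    rw [Finset.sum_const, nsmul_eq_mul, mul_comm]
  have hchain := Pool.Agent.TH888.R.chain (μ := volume.restrict (Set.Ioc s t)) (C := 3 * C)
    (by positivity) (Y := Y)
    (by
      intro a b hab
      have e : (fun x => (∑ j ∈ Finset.Ico a b, Y j x) ^ 2) =
          fun x => (∑ n ∈ Finset.Ico (nn a) (nn b), (f n x - r n)) ^ 2 := by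
        funext x
        rw [hYsum x a b hab]
      rw [e]
      refine Integrable.of_bound (hmeas _ _).aestronglyMeasurable
        ((3 * ((Finset.Ico (nn a) (nn b)).card : ℝ)) ^ 2) (Eventually.of_forall fun x => ?_)
      rw [Real.norm_eq_abs, abs_pow]
      exact pow_le_pow_left₀ (abs_nonneg _) (hbd _ _ x) 2)
    (by
      intro a b hab
      have e : (fun x => (∑ j ∈ Finset.Ico a b, Y j x) ^ 2) =
          fun x => (∑ n ∈ Finset.Ico (nn a) (nn b), (f n x - r n)) ^ 2 := by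
        funext x
        rw [hYsum x a b hab]
      rw [e]
      rcases Nat.eq_or_lt_of_le hab with h | h
      · subst h
        simp
      · refine (hvar (nn a) (nn b) (hn1 a) (hn5 hab)).trans ?_
        rw [hIco _ _ (hn5 hab)]
        have h1 := hn4 b
        have h2 := hn2 a
        have h3 : (a : ℝ) + 1 ≤ b := by exact_mod_cast h
        have h4 : V (nn b) - V (nn a) ≤ 3 * ((b : ℝ) - a) := by linarith
        calc C * (V (nn b) - V (nn a)) ≤ C * (3 * ((b : ℝ) - a)) :=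
              mul_le_mul_of_nonneg_left h4 hC
          _ = 3 * C * ((b : ℝ) - a) := by ring)
  rw [ae_restrict_iff' measurableSet_Ioc] at hchain
  filter_upwards [hchain] with x hx hxs
  obtain ⟨B, hB0, hB⟩ := hx hxs
  have hBJ : ∀ J : ℕ, |∑ n ∈ Finset.Ico P (nn J), (f n x - r n)| ≤
      B * (Real.sqrt ((J : ℝ) + 1) * (1 + Real.log ((J : ℝ) + 1)) ^ 2) := by
    intro J
    have h1 := hB J
    rw [Finset.range_eq_Ico, hYsum x 0 J (Nat.zero_le J), hn0] at h1
    exact h1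
  refine ⟨8 * B + 3 * P + 3, by positivity, fun N => ?_⟩
  have hg1 := gauge_one (hV0 N)
  set g : ℝ := Real.sqrt (1 + V N) * (1 + Real.log (1 + V N)) ^ 2 with hg
  have hdiff : ∑ n ∈ Finset.range N, f n x - V N = ∑ n ∈ Finset.Ico 0 N, (f n x - r n) := by
    rw [← Finset.range_eq_Ico, Finset.sum_sub_distrib]
  show |∑ n ∈ Finset.range N, f n x - V N| ≤ (8 * B + 3 * P + 3) * g
  rw [hdiff]
  have hg0 : 0 ≤ g := by linarith
  rcases Nat.lt_or_ge N P with hNP | hNP
  · refine (hbd 0 N x).trans ?_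
    rw [Nat.card_Ico, Nat.sub_zero]
    have h1 : (N : ℝ) ≤ P := by exact_mod_cast hNP.le
    have h2 : (3 * (P : ℝ)) * 1 ≤ (8 * B + 3 * P + 3) * g :=
      mul_le_mul (by linarith) hg1 (by norm_num) (by positivity)
    linarith
  · rw [← Finset.sum_Ico_consecutive _ (Nat.zero_le P) hNP]
    have hfirst : |∑ n ∈ Finset.Ico 0 P, (f n x - r n)| ≤ 3 * P := by
      refine (hbd 0 P x).trans ?_
      rw [Nat.card_Ico, Nat.sub_zero]
    set J := ⌊V N - V P⌋₊ with hJ
    have hVNP : 0 ≤ V N - V P := sub_nonneg.2 (hVmono hNP)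
    have hJ1 : (J : ℝ) ≤ V N - V P := Nat.floor_le hVNP
    have hJ2 : V N - V P < J + 1 := Nat.lt_floor_add_one _
    have hNJ : nn J ≤ N := hn3 J N hNP (by linarith)
    have hNJ1 : N ≤ nn (J + 1) := by
      by_contra hcon
      push Not at hcon
      have h1 := hVmono hcon.le
      have h2 := hn2 (J + 1)
      push_cast at h2
      linarith
    have hF1 : ∑ n ∈ Finset.Ico P (nn J), f n x ≤ ∑ n ∈ Finset.Ico P N, f n x :=
      Finset.sum_le_sum_of_subset_of_nonneg (Finset.Ico_subset_Ico le_rfl hNJ)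
        fun n _ _ => hf0 n x
    have hF2 : ∑ n ∈ Finset.Ico P N, f n x ≤ ∑ n ∈ Finset.Ico P (nn (J + 1)), f n x :=
      Finset.sum_le_sum_of_subset_of_nonneg (Finset.Ico_subset_Ico le_rfl hNJ1)
        fun n _ _ => hf0 n x
    have hb1 := hBJ J
    have hb2 := hBJ (J + 1)
    rw [Finset.sum_sub_distrib, hIco _ _ (hn1 _)] at hb1 hb2
    have hm1 : Real.sqrt ((J : ℝ) + 1) * (1 + Real.log ((J : ℝ) + 1)) ^ 2 ≤
        Real.sqrt (((J : ℝ) + 1) + 1) * (1 + Real.log (((J : ℝ) + 1) + 1)) ^ 2 :=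
      gauge_mono (Nat.cast_nonneg J) (by linarith)
    have hm2 : Real.sqrt (((J : ℝ) + 1) + 1) * (1 + Real.log (((J : ℝ) + 1) + 1)) ^ 2 ≤ 8 * g := by
      have h1 : (J : ℝ) ≤ V N := by
        have := hV0 P
        linarith
      have h2 := gauge_le h1
      have h3 : ((J : ℝ) + 1) + 1 = (J : ℝ) + 2 := by ring
      rw [h3]
      exact h2
    push_cast at hb2
    have hB1 : |∑ n ∈ Finset.Ico P (nn J), f n x - (V (nn J) - V P)| ≤ B * (8 * g) :=
      hb1.trans (mul_le_mul_of_nonneg_left (hm1.trans hm2) hB0)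
    have hB2 : |∑ n ∈ Finset.Ico P (nn (J + 1)), f n x - (V (nn (J + 1)) - V P)| ≤ B * (8 * g) :=
      hb2.trans (mul_le_mul_of_nonneg_left hm2 hB0)
    have hn4' := hn4 (J + 1)
    have hn2' := hn2 J
    push_cast at hn4'
    have hD : |∑ n ∈ Finset.Ico P N, (f n x - r n)| ≤ B * (8 * g) + 3 := by
      rw [Finset.sum_sub_distrib, hIco _ _ hNP]
      rw [abs_le] at hB1 hB2 ⊢
      constructor <;> linarith [hB1.1, hB1.2, hB2.1, hB2.2]
    refine (abs_add_le _ _).trans ((add_le_add hfirst hD).trans ?_)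
    have h7 : (3 * (P : ℝ) + 3) * 1 ≤ (3 * P + 3) * g :=
      mul_le_mul_of_nonneg_left hg1 (by positivity)
    nlinarith
end Pool.Agent.TH915.SL
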