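import Mathlib
set_option autoImplicit false
namespace Pool.Agent.TH915.SL
open Filter Topology Finset

/-- the product of the first `k` primes -/
noncomputable def primorialK (k : ℕ) : ℕ := ∏ i ∈ range k, Nat.nth Nat.Prime i

namespace Prim

theorem pos (k : ℕ) : 0 < primorialK k :=
  Finset.prod_pos fun i _ => (Nat.prime_nth_prime i).pos

theorem log_succ (n : ℕ) : Real.log (primorialK (n + 1) : ℝ) =
    Real.log (primorialK n : ℝ) + Real.log (Nat.nth Nat.Prime n : ℝ) := by
  have h1 : primorialK (n + 1) = primorialK n * Nat.nth Nat.Prime n := by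
    unfold primorialK
    rw [Finset.prod_range_succ]
  rw [h1, Nat.cast_mul, Real.log_mul]
  · exact_mod_cast (pos n).ne'
  · exact_mod_cast (Nat.prime_nth_prime n).ne_zero

theorem step (n : ℕ) : ((n + 1 : ℕ) : ℝ) * Real.log ((n + 1 : ℕ) : ℝ) - ((n + 1 : ℕ) : ℝ) -
    (n * Real.log n - n) ≤ Real.log (Nat.nth Nat.Prime n : ℝ) := by
  have h1 : Real.log ((n + 1 : ℕ) : ℝ) ≤ Real.log (Nat.nth Nat.Prime n : ℝ) := by
    apply Real.log_le_log (by positivity)
    have := Nat.add_two_le_nth_prime n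
    exact_mod_cast (by omega : n + 1 ≤ Nat.nth Nat.Prime n)
  have h2 : (n : ℝ) * (Real.log ((n + 1 : ℕ) : ℝ) - Real.log n) ≤ 1 := by
    rcases Nat.eq_zero_or_pos n with rfl | hn
    · simp
    · have hn' : (0 : ℝ) < n := by exact_mod_cast hn
      have h3 : Real.log ((n + 1 : ℕ) : ℝ) - Real.log n ≤ 1 / n := by
        rw [← Real.log_div (by positivity) hn'.ne']
        refine (Real.log_le_sub_one_of_pos (by positivity)).trans (le_of_eq ?_)
        push_cast
        field_simp
        ring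
      calc (n : ℝ) * (Real.log ((n + 1 : ℕ) : ℝ) - Real.log n) ≤ n * (1 / n) :=
            mul_le_mul_of_nonneg_left h3 hn'.le
        _ = 1 := by field_simp
  push_cast at h1 h2 ⊢
  nlinarith

theorem growth_aux (m : ℕ) : ∀ n, m ≤ n → ((n : ℝ) * Real.log n - n) - (m * Real.log m - m) ≤
    Real.log (primorialK n : ℝ) - Real.log (primorialK m : ℝ) := by
  intro n hn
  induction n, hn using Nat.le_induction with
  | base => rw [sub_self, sub_self]
  | succ n hn ih =>
    have h := step n
    rw [log_succ]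
    linarith

theorem nth_prime_le (k : ℕ) : Nat.nth Nat.Prime k ≤ (4 * (k + 1)) ^ 2 := by
  by_contra hcon
  push Not at hcon
  obtain ⟨m, hm⟩ : ∃ m, m = 4 * (k + 1) := ⟨_, rfl⟩
  rw [← hm] at hcon
  have h1 : Nat.primeCounting (m ^ 2) ≤ k := by
    have h := Nat.monotone_primeCounting' (show m ^ 2 + 1 ≤ Nat.nth Nat.Prime k from hcon)
    rw [Nat.primeCounting'_nth_eq] at h
    exact h
  have hm4 : (4 : ℝ) ≤ m := by
    have : 4 ≤ m := by omega
    exact_mod_cast this
  have hk : (k : ℝ) = m / 4 - 1 := by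
    rw [hm]
    push_cast
    ring
  have hm0 : (0 : ℝ) < m := by linarith
  have hlog : Real.log m ≤ m / 2 := by
    have h2 := Real.log_le_sub_one_of_pos (show (0 : ℝ) < m / 2 by positivity)
    rw [Real.log_div hm0.ne' two_ne_zero] at h2
    have h3 := Real.log_two_lt_d9
    linarith
  have hlogpos : 0 < Real.log m := Real.log_pos (by linarith)
  have hN : Real.log ((m ^ 2 : ℕ) : ℝ) = 2 * Real.log m := by
    push_cast
    rw [Real.log_pow]
    norm_num
  have hN1 : Real.log (((m ^ 2 : ℕ) : ℝ) + 1) ≤ 1 + m := by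
    have h2 : Real.log (((m ^ 2 : ℕ) : ℝ) + 1) ≤ Real.log (2 * (m : ℝ) ^ 2) := by
      apply Real.log_le_log (by positivity)
      push_cast
      nlinarith
    rw [Real.log_mul two_ne_zero (by positivity), Real.log_pow] at h2
    have h3 := Real.log_two_lt_d9
    push_cast at h2 ⊢
    linarith
  have h5 := Chebyshev.pi_ge (m ^ 2)
  rw [hN, div_le_iff₀ (by positivity)] at h5
  have h6 : (Nat.primeCounting (m ^ 2) : ℝ) ≤ k := by exact_mod_cast h1
  have h7 : (Nat.primeCounting (m ^ 2) : ℝ) * (2 * Real.log m) ≤ k * m := by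
    apply mul_le_mul h6 (by linarith) (by positivity) (by positivity)
  have h8 := Real.log_two_gt_d9
  have h9 : (((m ^ 2 : ℕ) : ℝ)) = (m : ℝ) ^ 2 := by push_cast; ring
  rw [h9] at h5 hN1
  rw [hk] at h7
  nlinarith

end Prim

open Prim

theorem prim_growth : ∃ n0 : ℕ, 2 ≤ n0 ∧ ∀ m n : ℕ, n0 ≤ n → m < n →
    (1 / 2 : ℝ) * (((n - m : ℕ) : ℝ) * Real.log n) ≤
      Real.log (primorialK n : ℝ) - Real.log (primorialK m : ℝ) := by
  refine ⟨8, by norm_num, fun m n hn hmn => (le_trans ?_ (growth_aux m n hmn.le))⟩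
  rw [Nat.cast_sub hmn.le]
  have hmn' : (m : ℝ) < n := by exact_mod_cast hmn
  have hn8 : (8 : ℝ) ≤ n := by exact_mod_cast hn
  have h1 : 2 ≤ Real.log n := by
    have h2 : Real.log 8 ≤ Real.log n := Real.log_le_log (by norm_num) hn8
    have h3 : Real.log 8 = 3 * Real.log 2 := by
      rw [show (8 : ℝ) = 2 ^ 3 by norm_num, Real.log_pow]
      norm_num
    have h4 := Real.log_two_gt_d9
    linarith
  have h2 : (m : ℝ) * Real.log m ≤ m * Real.log n := by
    rcases Nat.eq_zero_or_pos m with rfl | hm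
    · simp
    · apply mul_le_mul_of_nonneg_left _ (Nat.cast_nonneg m)
      exact Real.log_le_log (by exact_mod_cast hm) hmn'.le
  nlinarith

theorem prim_upper : ∃ b : ℝ, 0 < b ∧ ∀ n : ℕ, 2 ≤ n →
    Real.log (primorialK n : ℝ) ≤ b * ((n : ℝ) * Real.log n) := by
  refine ⟨6, by norm_num, fun n hn => ?_⟩
  have hn' : (2 : ℝ) ≤ n := by exact_mod_cast hn
  have hn0 : (0 : ℝ) < n := by linarith
  have h1 : primorialK n ≤ ((4 * n) ^ 2) ^ n := by
    unfold primorialK
    calc ∏ i ∈ range n, Nat.nth Nat.Prime i ≤ ∏ _i ∈ range n, (4 * n) ^ 2 := by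
          apply Finset.prod_le_prod' 
          intro i hi
          refine (nth_prime_le i).trans (Nat.pow_le_pow_left ?_ 2)
          have := Finset.mem_range.1 hi
          omega
      _ = ((4 * n) ^ 2) ^ n := by rw [Finset.prod_const, Finset.card_range]
  have h2 : Real.log (primorialK n : ℝ) ≤ Real.log ((((4 : ℝ) * n) ^ 2) ^ n) := by
    apply Real.log_le_log (by exact_mod_cast pos n)
    exact_mod_cast h1
  refine h2.trans ?_
  rw [Real.log_pow, Real.log_pow, Real.log_mul (by norm_num) hn0.ne',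
    show (4 : ℝ) = 2 ^ 2 by norm_num, Real.log_pow]
  have h3 : Real.log 2 ≤ Real.log n := Real.log_le_log (by norm_num) hn'
  push_cast
  nlinarith

end Pool.Agent.TH915.SL
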