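import Mathlib
set_option autoImplicit false
namespace Pool.Agent.TH915.SL
open Filter Topology Finset

namespace PrimSum

/-- the logarithm of the `k`-th primorial -/
noncomputable def F (k : ℕ) : ℝ := Real.log ((∏ i ∈ range k, Nat.nth Nat.Prime i : ℕ) : ℝ)

/-- the logarithm of the `k`-th prime -/
noncomputable def a (k : ℕ) : ℝ := Real.log (Nat.nth Nat.Prime k : ℝ)

lemma two_le (k : ℕ) : (2 : ℝ) ≤ (Nat.nth Nat.Prime k : ℝ) := by
  have := (Nat.prime_nth_prime k).two_le
  exact_mod_cast this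

lemma prod_pos (k : ℕ) : (0 : ℝ) < ((∏ i ∈ range k, Nat.nth Nat.Prime i : ℕ) : ℝ) := by
  have : 0 < ∏ i ∈ range k, Nat.nth Nat.Prime i :=
    Finset.prod_pos fun i _ => (Nat.prime_nth_prime i).pos
  exact_mod_cast this

lemma F_succ (k : ℕ) : F (k + 1) = F k + a k := by
  unfold F a
  rw [prod_range_succ, Nat.cast_mul, Real.log_mul (prod_pos k).ne' (by linarith [two_le k])]

lemma F_zero : F 0 = 0 := by simp [F]

lemma a_ge (k : ℕ) : Real.log 2 ≤ a k := Real.log_le_log (by norm_num) (two_le k)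

lemma F_ge (k : ℕ) : (k : ℝ) * Real.log 2 ≤ F k := by
  induction k with
  | zero => simp [F_zero]
  | succ k ih => rw [F_succ]; push_cast; linarith [a_ge k]

lemma prod_filter (k : ℕ) :
    ∏ n ∈ (range (Nat.nth Nat.Prime k)).filter Nat.Prime, n = ∏ i ∈ range k, Nat.nth Nat.Prime i := by
  induction k with
  | zero =>
    rw [Nat.nth_prime_zero_eq_two]
    decide
  | succ k ih =>
    rw [Nat.filter_range_nth_eq_insert_of_infinite Nat.infinite_setOfPred_prime k,
      prod_insert (by simp), ih, prod_range_succ, mul_comm]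

lemma theta_eq (k : ℕ) : Chebyshev.theta (Nat.nth Nat.Prime k : ℝ) = F (k + 1) := by
  rw [Chebyshev.theta_eq_log_primorial, Nat.floor_natCast]
  unfold F primorial
  rw [range_add_one, filter_insert, if_pos (Nat.prime_nth_prime k), prod_insert (by simp),
    prod_filter, prod_range_succ, mul_comm]

lemma F_le (k : ℕ) : F (k + 1) ≤ Real.log 4 * (Nat.nth Nat.Prime k : ℝ) := by
  rw [← theta_eq]
  exact Chebyshev.theta_le_log4_mul_x (Nat.cast_nonneg _)

lemma log4 : Real.log 4 = 2 * Real.log 2 := by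
  rw [show (4 : ℝ) = 2 ^ 2 by norm_num, Real.log_pow]; norm_num

lemma exists_K : ∃ K : ℝ, 1 ≤ K ∧ ∀ n : ℕ, 2 ≤ n → (n : ℝ) ≤ K * Chebyshev.theta (n : ℝ) := by
  obtain ⟨C, hC⟩ := Chebyshev.psi_sub_theta_le_mul_sqrt
  obtain ⟨l, hl⟩ : ∃ l, l = Real.log 2 := ⟨_, rfl⟩
  have hl1 : 0.6931471803 < l := hl ▸ Real.log_two_gt_d9
  have hl2 : l < 0.6931471808 := hl ▸ Real.log_two_lt_d9
  obtain ⟨D, hD⟩ : ∃ D, D = C + 2 := ⟨_, rfl⟩
  obtain ⟨B, hB⟩ : ∃ B, B = D ^ 2 / (2 * l) := ⟨_, rfl⟩
  have hB0 : 0 ≤ B := by rw [hB]; positivity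
  refine ⟨2 / l * (1 + B / l), ?_, fun n hn => ?_⟩
  · have h1 : 1 ≤ 2 / l := by rw [le_div_iff₀ (by linarith)]; linarith
    have h2 : 1 ≤ 1 + B / l := by
      have : 0 ≤ B / l := by positivity
      linarith
    nlinarith
  · have h1 := Chebyshev.psi_ge n
    have h2 := hC (n : ℝ)
    obtain ⟨s, hs⟩ : ∃ s, s = √(n : ℝ) := ⟨_, rfl⟩
    have hs0 : 0 ≤ s := hs ▸ Real.sqrt_nonneg _
    have hss : s ^ 2 = n := by rw [hs]; exact Real.sq_sqrt (Nat.cast_nonneg _)
    have h3 : Real.log (n + 1) ≤ 2 * s := by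
      have e1 : (n : ℝ) + 1 ≤ (s + 1) ^ 2 := by nlinarith
      have e2 : Real.log (n + 1) ≤ Real.log ((s + 1) ^ 2) :=
        Real.log_le_log (by positivity) e1
      have e3 : Real.log ((s + 1) ^ 2) = 2 * Real.log (s + 1) := by
        rw [Real.log_pow]; norm_num
      have e4 : Real.log (s + 1) ≤ s := by
        have := Real.log_le_sub_one_of_pos (show 0 < s + 1 by linarith)
        linarith
      linarith
    rw [← hs] at h2
    rw [← hl] at h1
    have h4 : D * s ≤ l / 2 * s ^ 2 + B := by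
      have e : 0 ≤ (l * s - D) ^ 2 / (2 * l) := by positivity
      have e' : (l * s - D) ^ 2 / (2 * l) = l / 2 * s ^ 2 - D * s + B := by
        rw [hB]; field_simp; ring
      linarith
    have h5 : l / 2 * n ≤ Chebyshev.theta (n : ℝ) + B := by
      rw [hD] at h4
      nlinarith
    have h6 : l ≤ Chebyshev.theta (n : ℝ) := by
      have e1 : Chebyshev.theta (2 : ℝ) ≤ Chebyshev.theta (n : ℝ) :=
        Chebyshev.theta_mono (by exact_mod_cast hn)
      have e2 : Chebyshev.theta (2 : ℝ) = l := by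
        have := theta_eq 0
        rw [Nat.nth_prime_zero_eq_two] at this
        push_cast at this
        rw [this, F_succ, F_zero, a, Nat.nth_prime_zero_eq_two, hl]
        norm_num
      linarith
    have h7 : B ≤ B / l * Chebyshev.theta (n : ℝ) := by
      have : B = B / l * l := by field_simp
      calc B = B / l * l := this
        _ ≤ _ := mul_le_mul_of_nonneg_left h6 (by positivity)
    have h8 : (n : ℝ) = 2 / l * (l / 2 * n) := by field_simp
    calc (n : ℝ) = 2 / l * (l / 2 * n) := h8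
      _ ≤ 2 / l * (Chebyshev.theta (n : ℝ) + B) :=
          mul_le_mul_of_nonneg_left h5 (by positivity)
      _ ≤ 2 / l * (Chebyshev.theta (n : ℝ) + B / l * Chebyshev.theta (n : ℝ)) :=
          mul_le_mul_of_nonneg_left (by linarith) (by positivity)
      _ = 2 / l * (1 + B / l) * Chebyshev.theta (n : ℝ) := by ring

lemma exists_K2 : ∃ K : ℝ, 1 ≤ K ∧ ∀ k : ℕ, 1 ≤ k → (Nat.nth Nat.Prime k : ℝ) ≤ K * F k := by
  obtain ⟨K, hK1, hK⟩ := exists_K
  have hl1 := Real.log_two_gt_d9
  have hlK : 0 ≤ Real.log (2 * K) := Real.log_nonneg (by linarith)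
  refine ⟨2 * K + 2 * K * (Real.log (2 * K) / Real.log 2), ?_, fun k hk => ?_⟩
  · have : 0 ≤ 2 * K * (Real.log (2 * K) / Real.log 2) := by positivity
    linarith
  · have h1 := hK (Nat.nth Nat.Prime k) (Nat.prime_nth_prime k).two_le
    rw [theta_eq, F_succ] at h1
    have hx := two_le k
    obtain ⟨x, hxd⟩ : ∃ x, x = (Nat.nth Nat.Prime k : ℝ) := ⟨_, rfl⟩
    have hFk : Real.log 2 ≤ F k := by
      have h2 := F_ge k
      have h3 : (1 : ℝ) ≤ k := by exact_mod_cast hk
      nlinarith
    have ha : a k ≤ x / (2 * K) + Real.log (2 * K) := by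
      have e1 : a k = Real.log (x / (2 * K)) + Real.log (2 * K) := by
        rw [a, ← hxd, ← Real.log_mul (by rw [hxd]; positivity) (by positivity)]
        congr 1; field_simp
      have e2 := Real.log_le_sub_one_of_pos (show 0 < x / (2 * K) by rw [hxd]; positivity)
      linarith
    rw [← hxd] at h1 ⊢
    have h2 : K * (x / (2 * K)) = x / 2 := by field_simp
    have h3 : x ≤ K * F k + x / 2 + K * Real.log (2 * K) := by
      have : K * (F k + a k) ≤ K * (F k + (x / (2 * K) + Real.log (2 * K))) :=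
        mul_le_mul_of_nonneg_left (by linarith) (by linarith)
      rw [mul_add, mul_add, mul_add, h2] at this
      linarith
    have h4 : Real.log (2 * K) ≤ Real.log (2 * K) / Real.log 2 * F k := by
      have : Real.log (2 * K) = Real.log (2 * K) / Real.log 2 * Real.log 2 := by field_simp
      calc Real.log (2 * K) = Real.log (2 * K) / Real.log 2 * Real.log 2 := this
        _ ≤ _ := mul_le_mul_of_nonneg_left hFk (by positivity)
    nlinarith [mul_le_mul_of_nonneg_left h4 (show (0:ℝ) ≤ 2 * K by linarith)]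

lemma one_lt_F {k : ℕ} (hk : 2 ≤ k) : 1 < F k := by
  have h1 := F_ge k
  have h2 := Real.log_two_gt_d9
  have h3 : (2 : ℝ) ≤ k := by exact_mod_cast hk
  nlinarith

lemma log_F_pos {k : ℕ} (hk : 2 ≤ k) : 0 < Real.log (F k) := Real.log_pos (one_lt_F hk)

lemma a_pos (k : ℕ) : 0 < a k := lt_of_lt_of_le (Real.log_pos (by norm_num)) (a_ge k)

/-- `log F (k+1) ≤ a k + 1` -/
lemma g1 {k : ℕ} : Real.log (F (k + 1)) ≤ a k + 1 := by
  have h1 := F_le k
  have hx := two_le k
  have hF : 0 < F (k + 1) := by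
    have := F_ge (k + 1)
    have h2 := Real.log_two_gt_d9
    push_cast at this
    have h3 : (0 : ℝ) ≤ k := Nat.cast_nonneg k
    nlinarith
  have h4 : Real.log 4 ≤ Real.exp 1 := by
    rw [log4]; linarith [Real.log_two_lt_d9, Real.exp_one_gt_d9]
  have h5 : F (k + 1) ≤ Real.exp 1 * (Nat.nth Nat.Prime k : ℝ) := by nlinarith
  have h6 := Real.log_le_log hF h5
  rw [Real.log_mul (Real.exp_pos 1).ne' (by linarith), Real.log_exp] at h6
  unfold a; linarith

/-- `log F (k+1) ≤ 2 a k` -/
lemma g2 {k : ℕ} : Real.log (F (k + 1)) ≤ 2 * a k := by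
  have h1 := F_le k
  have hx := two_le k
  have hF : 0 < F (k + 1) := by
    have := F_ge (k + 1)
    have h2 := Real.log_two_gt_d9
    push_cast at this
    have h3 : (0 : ℝ) ≤ k := Nat.cast_nonneg k
    nlinarith
  have h4 : Real.log 4 ≤ 2 := by
    rw [log4]; linarith [Real.log_two_lt_d9]
  have h5 : F (k + 1) ≤ (Nat.nth Nat.Prime k : ℝ) ^ 2 := by nlinarith
  have h6 := Real.log_le_log hF h5
  rw [Real.log_pow] at h6
  unfold a; push_cast at h6; linarith

lemma loglog_le {x y : ℝ} (hx : 1 < x) (hxy : x ≤ y) :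
    Real.log (Real.log y) - Real.log (Real.log x) ≤ (y - x) / (x * Real.log x) := by
  have hlx : 0 < Real.log x := Real.log_pos hx
  have hly : 0 < Real.log y := Real.log_pos (by linarith)
  have hx0 : 0 < x := by linarith
  have hy0 : 0 < y := by linarith
  have h1 : Real.log (Real.log y) - Real.log (Real.log x) ≤ Real.log y / Real.log x - 1 := by
    rw [← Real.log_div hly.ne' hlx.ne']
    exact Real.log_le_sub_one_of_pos (by positivity)
  have h2 : Real.log y - Real.log x ≤ y / x - 1 := by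
    rw [← Real.log_div hy0.ne' hx0.ne']
    exact Real.log_le_sub_one_of_pos (by positivity)
  have h3 : Real.log y / Real.log x - 1 = (Real.log y - Real.log x) / Real.log x := by
    field_simp
  have h4 : (y - x) / (x * Real.log x) = (y / x - 1) / Real.log x := by
    field_simp
  rw [h4]
  refine h1.trans ?_
  rw [h3]
  exact div_le_div_of_nonneg_right h2 hlx.le

lemma loglog_ge {x y : ℝ} (hx : 1 < x) (hxy : x ≤ y) :
    (y - x) / (y * Real.log y) ≤ Real.log (Real.log y) - Real.log (Real.log x) := by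
  have hlx : 0 < Real.log x := Real.log_pos hx
  have hly : 0 < Real.log y := Real.log_pos (by linarith)
  have hx0 : 0 < x := by linarith
  have hy0 : 0 < y := by linarith
  have h1 : Real.log (Real.log x) - Real.log (Real.log y) ≤ Real.log x / Real.log y - 1 := by
    rw [← Real.log_div hlx.ne' hly.ne']
    exact Real.log_le_sub_one_of_pos (by positivity)
  have h2 : Real.log x - Real.log y ≤ x / y - 1 := by
    rw [← Real.log_div hx0.ne' hy0.ne']
    exact Real.log_le_sub_one_of_pos (by positivity)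
  have h3 : Real.log x / Real.log y - 1 = (Real.log x - Real.log y) / Real.log y := by
    field_simp
  have h4 : (y - x) / (y * Real.log y) = -((x / y - 1) / Real.log y) := by
    field_simp; ring
  rw [h4]
  have h5 := div_le_div_of_nonneg_right h2 hly.le
  linarith

/-- (s3) -/
lemma s3 {k : ℕ} (hk : 2 ≤ k) : 1 / (F (k + 1) * Real.log (F (k + 1))) ≤
    2 / Real.log (F k) - 2 / Real.log (F (k + 1)) := by
  have hx := one_lt_F hk
  have ha := a_pos k
  have hy : F (k + 1) = F k + a k := F_succ k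
  have hlx := log_F_pos hk
  have hly := log_F_pos (show 2 ≤ k + 1 by omega)
  have h2 := g2 (k := k)
  have hy0 : 0 < F (k + 1) := by linarith
  have hx0 : 0 < F k := by linarith
  have h3 : a k / F (k + 1) ≤ Real.log (F (k + 1)) - Real.log (F k) := by
    have e1 : Real.log (F k) - Real.log (F (k + 1)) ≤ F k / F (k + 1) - 1 := by
      rw [← Real.log_div hx0.ne' hy0.ne']
      exact Real.log_le_sub_one_of_pos (by positivity)
    have e2 : a k / F (k + 1) = 1 - F k / F (k + 1) := by
      rw [eq_sub_iff_add_eq, ← add_div, hy]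
      rw [div_eq_one_iff_eq (by rw [← hy]; exact hy0.ne')]; ring
    linarith
  have h4 : Real.log (F k) ≤ Real.log (F (k + 1)) := Real.log_le_log hx0 (by linarith)
  obtain ⟨X, hX⟩ : ∃ X, X = Real.log (F k) := ⟨_, rfl⟩
  obtain ⟨Y, hY⟩ : ∃ Y, Y = Real.log (F (k + 1)) := ⟨_, rfl⟩
  rw [← hX] at h3 h4 hlx ⊢
  rw [← hY] at h2 h3 h4 hly ⊢
  have h5 : 2 / X - 2 / Y = 2 * (Y - X) / (X * Y) := by field_simp
  rw [h5]
  have h6 : 2 * (a k / F (k + 1)) / (Y * Y) ≤ 2 * (Y - X) / (X * Y) := by
    have e1 : 0 ≤ 2 * (a k / F (k + 1)) := by positivity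
    calc 2 * (a k / F (k + 1)) / (Y * Y) ≤ 2 * (a k / F (k + 1)) / (X * Y) :=
          div_le_div_of_nonneg_left e1 (by positivity) (mul_le_mul_of_nonneg_right h4 hly.le)
      _ ≤ 2 * (Y - X) / (X * Y) := div_le_div_of_nonneg_right (by linarith) (by positivity)
  refine le_trans ?_ h6
  have h7 : 1 / (F (k + 1) * Y) = Y / F (k + 1) / (Y * Y) := by field_simp
  rw [h7]
  refine div_le_div_of_nonneg_right ?_ (by positivity)
  rw [mul_div_assoc']
  exact div_le_div_of_nonneg_right h2 hy0.le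

noncomputable def G (k : ℕ) : ℝ := Real.log (Real.log (F k))

noncomputable def Sm (N : ℕ) : ℝ := ∑ k ∈ range (N + 1), 1 / F k

lemma Sm_succ (N : ℕ) : Sm (N + 1) = Sm N + 1 / F (N + 1) := by
  unfold Sm; rw [sum_range_succ]

lemma I1 {N : ℕ} (hN : 2 ≤ N) :
    Sm N - G N + 2 / Real.log (F N) ≤ Sm 2 - G 2 + 2 / Real.log (F 2) := by
  induction N, hN using Nat.le_induction with
  | base => exact le_rfl
  | succ k hk ih =>
    refine le_trans ?_ ih
    rw [Sm_succ]
    have hx := one_lt_F hk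
    have ha := a_pos k
    have hy : F (k + 1) = F k + a k := F_succ k
    have hly := log_F_pos (show 2 ≤ k + 1 by omega)
    have hy0 : 0 < F (k + 1) := by linarith
    have h1 := loglog_ge hx (show F k ≤ F (k + 1) by linarith)
    have h2 := s3 hk
    have h3 := g1 (k := k)
    have h4 : F (k + 1) - F k = a k := by linarith
    rw [h4] at h1
    have h5 : 1 / F (k + 1) - 1 / (F (k + 1) * Real.log (F (k + 1))) ≤
        a k / (F (k + 1) * Real.log (F (k + 1))) := by
      have e1 : 1 / F (k + 1) - 1 / (F (k + 1) * Real.log (F (k + 1))) =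
          (Real.log (F (k + 1)) - 1) / (F (k + 1) * Real.log (F (k + 1))) := by
        field_simp
      rw [e1]
      exact div_le_div_of_nonneg_right (by linarith) (by positivity)
    unfold G
    linarith

lemma s1 {K : ℝ} (hK1 : 1 ≤ K) (hK : ∀ k : ℕ, 1 ≤ k → (Nat.nth Nat.Prime k : ℝ) ≤ K * F k)
    {k : ℕ} (hk : 2 ≤ k) :
    G (k + 1) - G k ≤ 1 / F k + Real.log K * (1 / (F k * Real.log (F k))) := by
  have hx := one_lt_F hk
  have ha := a_pos k
  have hy : F (k + 1) = F k + a k := F_succ k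
  have hlx := log_F_pos hk
  have hx0 : 0 < F k := by linarith
  have h1 := loglog_le hx (show F k ≤ F (k + 1) by linarith)
  have h4 : F (k + 1) - F k = a k := by linarith
  rw [h4] at h1
  have h2 : a k ≤ Real.log K + Real.log (F k) := by
    rw [← Real.log_mul (by linarith) hx0.ne']
    exact Real.log_le_log (by linarith [two_le k]) (hK k (by omega))
  have h3 : 1 / F k + Real.log K * (1 / (F k * Real.log (F k))) =
      (Real.log K + Real.log (F k)) / (F k * Real.log (F k)) := by
    field_simp; ring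
  rw [h3]
  exact h1.trans (div_le_div_of_nonneg_right h2 (by positivity))

lemma I2 {K : ℝ} (hK1 : 1 ≤ K) (hK : ∀ k : ℕ, 1 ≤ k → (Nat.nth Nat.Prime k : ℝ) ≤ K * F k)
    {N : ℕ} (hN : 2 ≤ N) :
    G (N + 1) - Sm N + Real.log K * (2 / Real.log (F N)) ≤
      G 3 - Sm 2 + Real.log K * (2 / Real.log (F 2)) := by
  induction N, hN using Nat.le_induction with
  | base => exact le_rfl
  | succ k hk ih =>
    refine le_trans ?_ ih
    rw [Sm_succ]
    have h1 := s1 hK1 hK (show 2 ≤ k + 1 by omega)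
    have h2 := s3 hk
    have h3 := mul_le_mul_of_nonneg_left h2 (Real.log_nonneg hK1)
    rw [mul_sub] at h3
    linarith

lemma G_mono {N : ℕ} (hN : 2 ≤ N) : G N ≤ G (N + 1) := by
  have hx := one_lt_F hN
  have ha := a_pos N
  have hy : F (N + 1) = F N + a N := F_succ N
  exact Real.log_le_log (log_F_pos hN) (Real.log_le_log (by linarith) (by linarith))

lemma F_sqrt {K : ℝ} (hK1 : 1 ≤ K) (hK : ∀ k : ℕ, 1 ≤ k → (Nat.nth Nat.Prime k : ℝ) ≤ K * F k)
    {N : ℕ} (hN : 1 ≤ N) : √(F N) ≤ (1 + √K) * N := by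
  have hκ : 0 ≤ √K := Real.sqrt_nonneg K
  induction N, hN using Nat.le_induction with
  | base =>
    rw [F_succ, F_zero, a, Nat.nth_prime_zero_eq_two]
    have h1 : √(0 + Real.log ((2 : ℕ) : ℝ)) ≤ 1 := by
      rw [zero_add]
      refine Real.sqrt_le_one.2 ?_
      push_cast
      linarith [Real.log_two_lt_d9]
    push_cast
    push_cast at h1
    linarith
  | succ k hk ih =>
    obtain ⟨s, hs⟩ : ∃ s, s = √(F k) := ⟨_, rfl⟩
    have hF0 : 0 ≤ F k := by
      have h2 := F_ge k
      have h3 := Real.log_two_gt_d9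
      have : (0 : ℝ) ≤ k * Real.log 2 := by positivity
      linarith
    have hs0 : 0 ≤ s := hs ▸ Real.sqrt_nonneg _
    have hss : s ^ 2 = F k := by rw [hs]; exact Real.sq_sqrt hF0
    have ha : a k ≤ 2 * (√K * s) := by
      have e1 : √(Nat.nth Nat.Prime k : ℝ) ≤ √K * s := by
        rw [hs, ← Real.sqrt_mul (by linarith)]
        exact Real.sqrt_le_sqrt (hK k hk)
      have hp : 0 < √(Nat.nth Nat.Prime k : ℝ) := Real.sqrt_pos.2 (by linarith [two_le k])
      have e2 : a k = 2 * Real.log (√(Nat.nth Nat.Prime k : ℝ)) := by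
        unfold a
        conv_lhs => rw [← Real.sq_sqrt (show (0 : ℝ) ≤ (Nat.nth Nat.Prime k : ℝ) by
          linarith [two_le k])]
        rw [Real.log_pow]; norm_num
      have e3 := Real.log_le_sub_one_of_pos hp
      linarith
    have h1 : F (k + 1) ≤ (s + √K) ^ 2 := by
      rw [F_succ, ← hss]
      nlinarith [sq_nonneg (√K)]
    have h2 : √(F (k + 1)) ≤ s + √K := by
      rw [show s + √K = √((s + √K) ^ 2) from (Real.sqrt_sq (by positivity)).symm]
      exact Real.sqrt_le_sqrt h1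
    rw [← hs] at ih
    push_cast
    nlinarith

lemma G_close : ∃ C : ℝ, ∀ N : ℕ, 3 ≤ N → |G N - Real.log (Real.log N)| ≤ C := by
  obtain ⟨K, hK1, hK⟩ := exists_K2
  obtain ⟨M, hM⟩ : ∃ M, M = 1 + √K := ⟨_, rfl⟩
  have hM1 : 1 ≤ M := by rw [hM]; linarith [Real.sqrt_nonneg K]
  refine ⟨max (Real.log 2) (Real.log (2 + 2 * Real.log M)), fun N hN => ?_⟩
  have hN3 : (3 : ℝ) ≤ N := by exact_mod_cast hN
  have hlN : 1 ≤ Real.log N := by
    rw [Real.le_log_iff_exp_le (by linarith)]
    linarith [Real.exp_one_lt_d9]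
  have hlM : 0 ≤ Real.log M := Real.log_nonneg hM1
  have hF1 := one_lt_F (show 2 ≤ N by omega)
  have hlF := log_F_pos (show 2 ≤ N by omega)
  have hup : Real.log (F N) ≤ (2 + 2 * Real.log M) * Real.log N := by
    have h1 := F_sqrt hK1 hK (show 1 ≤ N by omega)
    rw [← hM] at h1
    have h2 : F N ≤ (M * N) ^ 2 := by
      calc F N = √(F N) ^ 2 := (Real.sq_sqrt (by linarith)).symm
        _ ≤ _ := pow_le_pow_left₀ (Real.sqrt_nonneg _) h1 2
    have h3 := Real.log_le_log (by linarith) h2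
    rw [Real.log_pow, Real.log_mul (by linarith) (by linarith)] at h3
    push_cast at h3
    nlinarith
  have hlow : Real.log N ≤ 2 * Real.log (F N) := by
    have h1 := F_ge N
    have h2 := Real.log_two_gt_d9
    have h3 : (N : ℝ) ≤ F N ^ 2 := by
      have e1 : 0.6931471803 * (N : ℝ) ≤ F N := by nlinarith
      have e2 : (0.6931471803 * (N : ℝ)) ^ 2 ≤ F N ^ 2 :=
        pow_le_pow_left₀ (by positivity) e1 2
      nlinarith
    have h4 := Real.log_le_log (by linarith) h3
    rw [Real.log_pow] at h4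
    push_cast at h4
    exact h4
  have h1 : G N ≤ Real.log (2 + 2 * Real.log M) + Real.log (Real.log N) := by
    unfold G
    rw [← Real.log_mul (by linarith) (by linarith)]
    exact Real.log_le_log hlF hup
  have h2 : Real.log (Real.log N) ≤ Real.log 2 + G N := by
    unfold G
    rw [← Real.log_mul (by norm_num) hlF.ne']
    exact Real.log_le_log (by linarith) hlow
  rw [abs_le]
  constructor
  · linarith [le_max_left (Real.log 2) (Real.log (2 + 2 * Real.log M))]
  · linarith [le_max_right (Real.log 2) (Real.log (2 + 2 * Real.log M))]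

end PrimSum

/-- the sum of the inverses of the logarithms of the primorials -/
theorem prim_sum : ∃ C : ℝ, 0 < C ∧ ∀ N : ℕ, 3 ≤ N →
    |∑ k ∈ range (N + 1), 1 / Real.log ((∏ i ∈ range k, Nat.nth Nat.Prime i : ℕ) : ℝ) -
      Real.log (Real.log N)| ≤ C := by
  obtain ⟨K, hK1, hK⟩ := PrimSum.exists_K2
  obtain ⟨C, hC⟩ := PrimSum.G_close
  obtain ⟨c1, hc1⟩ : ∃ c1, c1 = PrimSum.Sm 2 - PrimSum.G 2 + 2 / Real.log (PrimSum.F 2) :=
    ⟨_, rfl⟩
  obtain ⟨c2, hc2⟩ : ∃ c2, c2 = PrimSum.G 3 - PrimSum.Sm 2 +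
    Real.log K * (2 / Real.log (PrimSum.F 2)) := ⟨_, rfl⟩
  refine ⟨|C| + |c1| + |c2| + 1, by positivity, fun N hN => ?_⟩
  have hS : ∑ k ∈ range (N + 1), 1 / Real.log ((∏ i ∈ range k, Nat.nth Nat.Prime i : ℕ) : ℝ) =
      PrimSum.Sm N := rfl
  rw [hS]
  have h1 := PrimSum.I1 (show 2 ≤ N by omega)
  have h2 := PrimSum.I2 hK1 hK (show 2 ≤ N by omega)
  have h3 := PrimSum.G_mono (show 2 ≤ N by omega)
  have h4 := abs_le.1 (hC N hN)
  have h5 := PrimSum.log_F_pos (show 2 ≤ N by omega)
  rw [← hc1] at h1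
  rw [← hc2] at h2
  have h6 : 0 ≤ 2 / Real.log (PrimSum.F N) := by positivity
  have h7 : 0 ≤ Real.log K * (2 / Real.log (PrimSum.F N)) := mul_nonneg (Real.log_nonneg hK1) h6
  have h8 := le_abs_self C
  have h9 := le_abs_self c1
  have h10 := le_abs_self c2
  have h11 := abs_nonneg c1
  have h12 := abs_nonneg c2
  have h13 := abs_nonneg C
  rw [abs_le]
  constructor <;> linarith

end Pool.Agent.TH915.SL
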