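import Pool.Agent.TH915.SL.Law
import Pool.Agent.TH915.SL.Fact
import Pool.Agent.TH915.SL.Prim
import Pool.Agent.TH915.SL.PrimSum

/-!
# Factorials, primorials and `n ^ n` (helper915)
-/

set_option autoImplicit false

namespace Pool.Agent.TH915.SL

open Filter Topology MeasureTheory Finset

open scoped Classical

variable {σ : ℕ → ℝ}

lemma gau_le {v w C : ℝ} (hv : 0 ≤ v) (hw : 0 ≤ w) (hC : 0 ≤ C) (h : w ≤ v + C) :
    gau w ≤ (Real.sqrt (1 + C) * (1 + Real.log (1 + C)) ^ 2) * gau v := by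
  unfold gau
  have h1 : 1 + w ≤ (1 + C) * (1 + v) := by nlinarith
  have h2 : Real.sqrt (1 + w) ≤ Real.sqrt (1 + C) * Real.sqrt (1 + v) := by
    rw [← Real.sqrt_mul (by linarith)]
    exact Real.sqrt_le_sqrt h1
  have h3 : Real.log (1 + w) ≤ Real.log (1 + C) + Real.log (1 + v) := by
    rw [← Real.log_mul (by linarith) (by linarith)]
    exact Real.log_le_log (by linarith) h1
  have l1 : 0 ≤ Real.log (1 + C) := Real.log_nonneg (by linarith)
  have l2 : 0 ≤ Real.log (1 + v) := Real.log_nonneg (by linarith)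
  have l3 : 0 ≤ Real.log (1 + w) := Real.log_nonneg (by linarith)
  have h4 : 1 + Real.log (1 + w) ≤ (1 + Real.log (1 + C)) * (1 + Real.log (1 + v)) := by nlinarith
  calc Real.sqrt (1 + w) * (1 + Real.log (1 + w)) ^ 2 ≤
      (Real.sqrt (1 + C) * Real.sqrt (1 + v)) *
        ((1 + Real.log (1 + C)) * (1 + Real.log (1 + v))) ^ 2 := by gcongr
    _ = _ := by ring

lemma one_le_gau {v : ℝ} (hv : 0 ≤ v) : 1 ≤ gau v := by
  unfold gau
  have l2 : 0 ≤ Real.log (1 + v) := Real.log_nonneg (by linarith)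
  have h1 : 1 ≤ Real.sqrt (1 + v) := by rw [Real.one_le_sqrt]; linarith
  have h2 : 1 ≤ (1 + Real.log (1 + v)) ^ 2 := by nlinarith
  nlinarith

lemma sum_eq_card_univ (g : ℕ → ℕ) (σ : ℕ → ℝ) (N : ℕ) (x : ℝ) :
    ∑ n ∈ range N, wi Set.univ n * fn g σ n x =
      (((range N).filter (fun n => (g ⌊σ n * x⌋₊).Prime)).card : ℝ) := by
  rw [← Finset.sum_boole]
  refine Finset.sum_congr rfl fun n _ => ?_
  unfold wi fn St ind
  by_cases h2 : (g ⌊σ n * x⌋₊).Prime <;> simp [h2]

/-- the law for all indices -/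
theorem main_law {g : ℕ → ℕ} (hg : Sh g) (hσ : Gr σ)
    (hsum : ∃ C : ℝ, 0 < C ∧ ∀ N : ℕ, 3 ≤ N →
      |∑ n ∈ range (N + 1), 1 / Real.log (σ n) - Real.log (Real.log N)| ≤ C) :
    ∀ᵐ x : ℝ, 0 < x → ∃ B : ℝ, ∀ N : ℕ, 3 ≤ N →
      |(((range (N + 1)).filter (fun n => (g ⌊σ n * x⌋₊).Prime)).card : ℝ) -
        Real.log (Real.log N)| ≤ B * gau (Real.log (Real.log N)) := by
  obtain ⟨C, hC, hs⟩ := hsum
  have e0 : ∀ N, ∑ n ∈ range N, wi Set.univ n * rr σ n = ∑ n ∈ range N, 1 / Real.log (σ n) := by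
    intro N
    refine Finset.sum_congr rfl fun n _ => ?_
    unfold wi rr
    rw [if_pos (Set.mem_univ n), one_mul]
  have hll : Tendsto (fun N : ℕ => Real.log (Real.log (N : ℝ)) - C) atTop atTop :=
    tendsto_atTop_add_const_right _ _
      (Real.tendsto_log_atTop.comp (Real.tendsto_log_atTop.comp tendsto_natCast_atTop_atTop))
  have hV : Tendsto (fun N => ∑ n ∈ range N, wi Set.univ n * rr σ n) atTop atTop := by
    refine (tendsto_add_atTop_iff_nat 1).1 ?_
    refine tendsto_atTop_mono' _ ?_ hll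
    filter_upwards [eventually_ge_atTop 3] with N hN
    rw [e0]
    have := (abs_le.1 (hs N hN)).1
    linarith
  filter_upwards [law_ae hg hσ Set.univ hV] with x hx hx0
  obtain ⟨B, hB, h⟩ := hx hx0
  refine ⟨B * (Real.sqrt (1 + C) * (1 + Real.log (1 + C)) ^ 2) + C, fun N hN => ?_⟩
  have h1 := h (N + 1)
  rw [sum_eq_card_univ, e0] at h1
  have h2 := hs N hN
  set V := ∑ n ∈ range (N + 1), 1 / Real.log (σ n) with hVd
  set v := Real.log (Real.log (N : ℝ)) with hv
  have hV0 : 0 ≤ V := Finset.sum_nonneg fun n _ => hσ.rr_nonneg n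
  have hN3 : (3 : ℝ) ≤ N := by exact_mod_cast hN
  have hv0 : 0 ≤ v := by
    apply Real.log_nonneg
    rw [Real.le_log_iff_exp_le (by linarith)]
    have := Real.exp_one_lt_d9
    linarith
  have h3 := gau_le hv0 hV0 hC.le (by linarith [(abs_le.1 h2).2])
  have h4 := one_le_gau hv0
  have h5 : B * gau V ≤ B * ((Real.sqrt (1 + C) * (1 + Real.log (1 + C)) ^ 2) * gau v) :=
    mul_le_mul_of_nonneg_left h3 hB
  have h6 : C ≤ C * gau v := le_mul_of_one_le_right hC.le h4
  calc |(((range (N + 1)).filter (fun n => (g ⌊σ n * x⌋₊).Prime)).card : ℝ) - v| ≤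
      |(((range (N + 1)).filter (fun n => (g ⌊σ n * x⌋₊).Prime)).card : ℝ) - V| + |V - v| :=
        abs_sub_le _ _ _
    _ ≤ B * gau V + C := add_le_add h1 h2
    _ ≤ _ := by rw [add_mul]; linarith

/-- comparison of the two series -/
lemma summable_iff (hσ : Gr σ) (S : Set ℕ) :
    (Summable fun n : ℕ => if n ∈ S then 1 / ((n : ℝ) * Real.log n) else 0) ↔
      Summable fun n : ℕ => wi S n * rr σ n := by
  obtain ⟨A, hA1, n1, hn1, hf⟩ := hσ.facts
  have e : ∀ n : ℕ, (if n ∈ S then 1 / ((n : ℝ) * Real.log n) else 0) = wi S n * rho n := by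
    intro n
    unfold wi rho
    split_ifs <;> simp
  simp only [e]
  constructor
  · intro h
    refine Summable.of_norm_bounded_eventually_nat (h.mul_left A) ?_
    filter_upwards [eventually_ge_atTop n1] with n hn
    obtain ⟨f1, f2, f3, f4, f5, f6⟩ := hf n hn
    have hw := wi_nonneg S n
    rw [Real.norm_eq_abs, abs_of_nonneg (mul_nonneg hw (hσ.rr_nonneg n))]
    calc wi S n * rr σ n ≤ wi S n * (A * rho n) := mul_le_mul_of_nonneg_left f1 hw
      _ = _ := by ring
  · intro h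
    refine Summable.of_norm_bounded_eventually_nat (h.mul_left A) ?_
    filter_upwards [eventually_ge_atTop n1] with n hn
    obtain ⟨f1, f2, f3, f4, f5, f6⟩ := hf n hn
    have hw := wi_nonneg S n
    rw [Real.norm_eq_abs, abs_of_nonneg (mul_nonneg hw (rho_nonneg n))]
    calc wi S n * rho n ≤ wi S n * (A * rr σ n) := mul_le_mul_of_nonneg_left f2 hw
      _ = _ := by ring

/-- the law for a set of indices -/
theorem set_law {g : ℕ → ℕ} (hg : Sh g) (hσ : Gr σ) (S : Set ℕ)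
    (hS : ¬ Summable fun n : ℕ => if n ∈ S then 1 / ((n : ℝ) * Real.log n) else 0) :
    ∀ᵐ x : ℝ, 0 < x → ∃ B : ℝ, ∀ N : ℕ,
      |(((range N).filter (fun n => n ∈ S ∧ (g ⌊σ n * x⌋₊).Prime)).card : ℝ) -
        ∑ n ∈ (range N).filter (fun n => n ∈ S), 1 / Real.log (σ n)| ≤
        B * gau (∑ n ∈ (range N).filter (fun n => n ∈ S), 1 / Real.log (σ n)) := by
  rw [summable_iff hσ S] at hS
  have hV := (not_summable_iff_tendsto_nat_atTop_of_nonneg (f := fun n => wi S n * rr σ n)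
    (fun n => mul_nonneg (wi_nonneg S n) (hσ.rr_nonneg n))).1 hS
  have e0 : ∀ N, ∑ n ∈ range N, wi S n * rr σ n =
      ∑ n ∈ (range N).filter (fun n => n ∈ S), 1 / Real.log (σ n) := by
    intro N
    rw [Finset.sum_filter]
    refine Finset.sum_congr rfl fun n _ => ?_
    unfold wi rr
    split_ifs <;> simp
  filter_upwards [law_ae hg hσ S hV] with x hx hx0
  obtain ⟨B, hB, h⟩ := hx hx0
  refine ⟨B, fun N => ?_⟩
  have h1 := h N
  rw [sum_eq_card, e0] at h1
  exact h1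

/-- the convergence half -/
theorem set_fin {g : ℕ → ℕ} (hg : Sh g) (hσ : Gr σ) (S : Set ℕ)
    (hS : Summable fun n : ℕ => if n ∈ S then 1 / ((n : ℝ) * Real.log n) else 0) :
    ∀ᵐ x : ℝ, 0 < x → {n : ℕ | n ∈ S ∧ (g ⌊σ n * x⌋₊).Prime}.Finite := by
  rw [summable_iff hσ S] at hS
  filter_upwards [conv_ae hg hσ S hS] with x hx hx0
  obtain ⟨n0, hn0⟩ := eventually_atTop.1 (hx hx0)
  refine (Set.finite_Iio n0).subset fun n hn => ?_
  by_contra hcon
  have h1 : n0 ≤ n := not_lt.1 hcon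
  refine hn0 n h1 ⟨hn.1, ?_⟩
  unfold fn St ind
  rw [if_pos hn.2]

lemma nat_one {a : ℕ} (ha : 0 < a) : (a : ℝ) = 1 ∨ 2 ≤ (a : ℝ) := by
  rcases Nat.lt_or_ge a 2 with h | h
  · left
    have : a = 1 := by omega
    rw [this]; norm_num
  · right
    exact_mod_cast h

theorem gr_fact : Gr (fun n => (n.factorial : ℝ)) where
  one n := nat_one (Nat.factorial_pos n)
  lo := ⟨1 / 2, by norm_num, fact_growth⟩
  up := ⟨1, one_pos, fun n _ => by rw [one_mul]; exact fact_upper n⟩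

lemma primorialK_pos (n : ℕ) : 0 < primorialK n := by
  unfold primorialK
  exact Finset.prod_pos fun i _ => (Nat.prime_nth_prime i).pos

theorem gr_prim : Gr (fun n => (primorialK n : ℝ)) where
  one n := nat_one (primorialK_pos n)
  lo := ⟨1 / 2, by norm_num, prim_growth⟩
  up := prim_upper

lemma log_npow (n : ℕ) : Real.log ((n ^ n : ℕ) : ℝ) = (n : ℝ) * Real.log n := by
  push_cast
  rw [Real.log_pow]

theorem gr_npow : Gr (fun n => ((n ^ n : ℕ) : ℝ)) where
  one n := nat_one (by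
    rcases Nat.eq_zero_or_pos n with rfl | hn
    · simp
    · exact Nat.pow_pos hn)
  lo := by
    refine ⟨1, one_pos, 2, le_rfl, fun m n hn hmn => ?_⟩
    rw [log_npow, log_npow, one_mul, Nat.cast_sub hmn.le]
    have h1 : (m : ℝ) * Real.log m ≤ m * Real.log n := by
      rcases Nat.eq_zero_or_pos m with rfl | hm
      · simp
      · exact mul_le_mul_of_nonneg_left (Real.log_le_log (by exact_mod_cast hm)
          (by exact_mod_cast hmn.le)) (Nat.cast_nonneg m)
    linarith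
  up := ⟨1, one_pos, fun n _ => by rw [log_npow, one_mul]⟩

theorem npow_sum : ∃ C : ℝ, 0 < C ∧ ∀ N : ℕ, 3 ≤ N →
    |∑ n ∈ range (N + 1), 1 / Real.log ((n ^ n : ℕ) : ℝ) - Real.log (Real.log N)| ≤ C := by
  obtain ⟨C, hC, h⟩ := sum_loglog
  refine ⟨C, hC, fun N hN => ?_⟩
  simp only [log_npow]
  exact h N hN

end Pool.Agent.TH915.SL
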