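import Mathlib
import Pool.Agent.TH73.J311f
import Pool.Agent.Helper923.PPS.BT

/-!
# Step functions, the prime number theorem and the Brun-Titchmarsh inequality (helper915)
-/

set_option autoImplicit false

namespace Pool.Agent.TH915.SL

open Filter Topology MeasureTheory Finset

open scoped Classical

/-- the step function of a sequence -/
noncomputable def St (a : ℕ → ℝ) (y : ℝ) : ℝ := a ⌊y⌋₊

lemma St_meas (a : ℕ → ℝ) : Measurable (St a) :=
  (measurable_from_top (f := a)).comp Nat.measurable_floor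

lemma St_ion (a : ℕ → ℝ) (u v : ℝ) : IntegrableOn (St a) (Set.Ioc u v) := by
  refine Measure.integrableOn_of_bounded (M := ∑ k ∈ range (⌊v⌋₊ + 1), |a k|) (by simp)
    (St_meas a).aestronglyMeasurable ?_
  refine ae_restrict_of_forall_mem measurableSet_Ioc fun x hx => ?_
  rw [Real.norm_eq_abs]
  unfold St
  refine Finset.single_le_sum (f := fun k => |a k|) (fun _ _ => abs_nonneg _) ?_
  rw [Finset.mem_range]
  exact Nat.lt_succ_of_le (Nat.floor_mono hx.2)

lemma St_ii (a : ℕ → ℝ) (u v : ℝ) : IntervalIntegrable (St a) volume u v := by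
  rcases le_total u v with h | h
  · exact (intervalIntegrable_iff_integrableOn_Ioc_of_le h).2 (St_ion a u v)
  · exact ((intervalIntegrable_iff_integrableOn_Ioc_of_le h).2 (St_ion a v u)).symm

lemma St_cell (a : ℕ → ℝ) (k : ℕ) : ∫ y in (k : ℝ)..((k + 1 : ℕ) : ℝ), St a y = a k := by
  rw [intervalIntegral.integral_of_le (by push_cast; linarith), ← integral_Ico_eq_integral_Ioc]
  have h1 : ∀ y ∈ Set.Ico (k : ℝ) ((k + 1 : ℕ) : ℝ), St a y = a k := by
    intro y hy
    have h2 : ⌊y⌋₊ = k := by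
      rw [Nat.floor_eq_iff (le_trans (Nat.cast_nonneg k) hy.1)]
      exact ⟨hy.1, by have := hy.2; push_cast at this; exact this⟩
    unfold St
    rw [h2]
  rw [setIntegral_congr_fun measurableSet_Ico h1, setIntegral_const]
  simp

lemma St_nat (a : ℕ → ℝ) {m n : ℕ} (h : m ≤ n) :
    ∫ y in (m : ℝ)..(n : ℝ), St a y = ∑ k ∈ Finset.Ico m n, a k := by
  rw [← intervalIntegral.sum_integral_adjacent_intervals_Ico h fun k _ => St_ii a _ _]
  exact Finset.sum_congr rfl fun k _ => St_cell a k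

lemma St_mono {a : ℕ → ℝ} (ha : ∀ k, 0 ≤ a k) {u v u' v' : ℝ} (h1 : u' ≤ u) (h2 : u ≤ v)
    (h3 : v ≤ v') : ∫ y in u..v, St a y ≤ ∫ y in u'..v', St a y := by
  rw [intervalIntegral.integral_of_le h2, intervalIntegral.integral_of_le (h1.trans (h2.trans h3))]
  exact setIntegral_mono_set (St_ion a _ _) (Eventually.of_forall fun y => ha _)
    (Set.Ioc_subset_Ioc h1 h3).eventuallyLE

lemma St_sub (a : ℕ → ℝ) (u v : ℝ) :
    (∫ y in (0 : ℝ)..v, St a y) - (∫ y in (0 : ℝ)..u, St a y) = ∫ y in u..v, St a y := by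
  rw [intervalIntegral.integral_interval_sub_left (St_ii a _ _) (St_ii a _ _)]

/-- the two shifts -/
def Sh (g : ℕ → ℕ) : Prop := (∀ k, g k = k + 1) ∨ (∀ k, g k = k - 1)

/-- the indicator of the primes -/
noncomputable def ind (g : ℕ → ℕ) (k : ℕ) : ℝ := if (g k).Prime then 1 else 0

/-- the logarithmic weights of the primes -/
noncomputable def th (g : ℕ → ℕ) (k : ℕ) : ℝ := if (g k).Prime then Real.log (g k) else 0

lemma ind_nonneg (g : ℕ → ℕ) (k : ℕ) : 0 ≤ ind g k := by unfold ind; split_ifs <;> norm_num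

lemma ind_le_one (g : ℕ → ℕ) (k : ℕ) : ind g k ≤ 1 := by unfold ind; split_ifs <;> norm_num

lemma th_nonneg (g : ℕ → ℕ) (k : ℕ) : 0 ≤ th g k := by
  unfold th
  split_ifs with h
  · exact Real.log_nonneg (by exact_mod_cast h.one_lt.le)
  · exact le_rfl

lemma th_eq (g : ℕ → ℕ) (k : ℕ) : th g k = ind g k * Real.log (g k) := by
  unfold th ind
  split_ifs <;> simp

/-- `log p` -/
noncomputable def tt (k : ℕ) : ℝ := if k.Prime then Real.log k else 0

lemma tt_nonneg (k : ℕ) : 0 ≤ tt k := by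
  unfold tt
  split_ifs with h
  · exact Real.log_nonneg (by exact_mod_cast h.one_lt.le)
  · exact le_rfl

lemma tt_le {k N : ℕ} (h : k ≤ N + 1) : tt k ≤ Real.log ((N : ℝ) + 2) := by
  unfold tt
  split_ifs with hp
  · apply Real.log_le_log (by exact_mod_cast hp.pos)
    have : (k : ℝ) ≤ (N : ℝ) + 1 := by exact_mod_cast h
    linarith
  · exact Real.log_nonneg (by have : (0 : ℝ) ≤ N := Nat.cast_nonneg N; linarith)

lemma theta_eq_tt (x : ℝ) : Chebyshev.theta x = ∑ j ∈ range (⌊x⌋₊ + 1), tt j := by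
  unfold Chebyshev.theta
  rw [Finset.sum_filter]
  have h : ∑ j ∈ Finset.Ioc 0 ⌊x⌋₊, tt j = ∑ j ∈ range (⌊x⌋₊ + 1), tt j := by
    refine Finset.sum_subset ?_ ?_
    · intro j hj
      rw [Finset.mem_Ioc] at hj
      rw [Finset.mem_range]; omega
    · intro j hj hj2
      rw [Finset.mem_range] at hj
      rw [Finset.mem_Ioc] at hj2
      have : j = 0 := by omega
      rw [this]; unfold tt; simp
  rw [← h]
  rfl

/-- the sums of the weights are near the Chebyshev function -/
lemma sum_th {g : ℕ → ℕ} (hg : Sh g) (N : ℕ) :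
    ∑ k ∈ range N, th g k ≤ ∑ j ∈ range (N + 1), tt j ∧
    ∑ j ∈ range (N + 1), tt j ≤ ∑ k ∈ range N, th g k + 2 * Real.log ((N : ℝ) + 2) := by
  have hl : 0 ≤ Real.log ((N : ℝ) + 2) :=
    Real.log_nonneg (by have : (0 : ℝ) ≤ N := Nat.cast_nonneg N; linarith)
  rcases hg with hg | hg
  · have e : ∑ k ∈ range N, th g k = ∑ j ∈ range (N + 1), tt j := by
      rw [Finset.sum_range_succ']
      have h0 : tt 0 = 0 := by unfold tt; simp
      rw [h0, add_zero]
      refine Finset.sum_congr rfl fun k _ => ?_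
      unfold th tt
      rw [hg]
    rw [e]
    constructor
    · exact le_rfl
    · linarith
  · rcases Nat.eq_zero_or_pos N with rfl | hN
    · have h0 : tt 0 = 0 := by unfold tt; simp
      simp only [Finset.range_zero, Finset.sum_empty, zero_add, Finset.range_one,
        Finset.sum_singleton, h0]
      exact ⟨le_rfl, by linarith⟩
    · obtain ⟨M, rfl⟩ : ∃ M, N = M + 1 := ⟨N - 1, by omega⟩
      have e : ∑ k ∈ range (M + 1), th g k = ∑ j ∈ range M, tt j := by
        rw [Finset.sum_range_succ']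
        have h0 : th g 0 = 0 := by
          unfold th; rw [hg]; simp
        rw [h0, add_zero]
        refine Finset.sum_congr rfl fun k _ => ?_
        unfold th tt
        rw [hg]
        simp
      rw [e, Finset.sum_range_succ, Finset.sum_range_succ]
      have h1 := tt_nonneg M
      have h2 := tt_nonneg (M + 1)
      have h3 : tt M ≤ Real.log (((M + 1 : ℕ) : ℝ) + 2) := tt_le (by omega)
      have h4 : tt (M + 1) ≤ Real.log (((M + 1 : ℕ) : ℝ) + 2) := tt_le (by omega)
      constructor <;> linarith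

lemma int_th {g : ℕ → ℕ} (hg : Sh g) {u : ℝ} (hu : 0 ≤ u) :
    |(∫ y in (0 : ℝ)..u, St (th g) y) - Chebyshev.theta u| ≤ 2 * Real.log (u + 3) := by
  set N := ⌊u⌋₊ with hN
  have f1 : (N : ℝ) ≤ u := Nat.floor_le hu
  have f2 : u < N + 1 := Nat.lt_floor_add_one u
  have e0 := theta_eq_tt u
  rw [← hN] at e0
  have a1 : ∑ k ∈ range N, th g k ≤ ∫ y in (0 : ℝ)..u, St (th g) y := by
    have := St_mono (th_nonneg g) (le_refl (0 : ℝ)) (Nat.cast_nonneg N) f1
    have e := St_nat (th g) (Nat.zero_le N)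
    rw [Nat.cast_zero] at e
    rw [e, ← Finset.range_eq_Ico] at this
    exact this
  have a2 : ∫ y in (0 : ℝ)..u, St (th g) y ≤ ∑ k ∈ range (N + 1), th g k := by
    have := St_mono (th_nonneg g) (le_refl (0 : ℝ)) hu
      (show u ≤ ((N + 1 : ℕ) : ℝ) by push_cast; exact f2.le)
    have e := St_nat (th g) (Nat.zero_le (N + 1))
    rw [Nat.cast_zero] at e
    rw [e, ← Finset.range_eq_Ico] at this
    exact this
  obtain ⟨b1, b2⟩ := sum_th hg N
  obtain ⟨c1, _⟩ := sum_th hg (N + 1)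
  rw [Finset.sum_range_succ (n := N + 1)] at c1
  have h4 : tt (N + 1) ≤ Real.log ((N : ℝ) + 2) := tt_le le_rfl
  have h5 : Real.log ((N : ℝ) + 2) ≤ Real.log (u + 3) :=
    Real.log_le_log (by positivity) (by linarith)
  have h6 : 0 ≤ Real.log (u + 3) := Real.log_nonneg (by linarith)
  rw [abs_le]
  constructor <;> linarith

lemma exp_aux (c : ℝ) {L : ℝ} (hL : 0 ≤ L) :
    (L + 2) * Real.exp (-(L / 2)) ≤ (8 * Real.exp (c ^ 2)) * Real.exp (-(c * Real.sqrt L)) := by
  have h1 : L + 2 ≤ 8 * Real.exp (L / 4) := by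
    have := Real.add_one_le_exp (L / 4)
    linarith
  have h2 : -(L / 4) ≤ c ^ 2 - c * Real.sqrt L := by
    have h3 : Real.sqrt L ^ 2 = L := Real.sq_sqrt hL
    nlinarith [sq_nonneg (c - Real.sqrt L / 2)]
  calc (L + 2) * Real.exp (-(L / 2)) ≤ (8 * Real.exp (L / 4)) * Real.exp (-(L / 2)) :=
        mul_le_mul_of_nonneg_right h1 (Real.exp_pos _).le
    _ = 8 * Real.exp (-(L / 4)) := by
        rw [mul_assoc, ← Real.exp_add]; ring_nf
    _ ≤ 8 * Real.exp (c ^ 2 - c * Real.sqrt L) :=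
        mul_le_mul_of_nonneg_left (Real.exp_le_exp.2 h2) (by norm_num)
    _ = _ := by
        rw [mul_assoc, ← Real.exp_add]; ring_nf

/-- the prime number theorem for the weights -/
theorem pnt_int {g : ℕ → ℕ} (hg : Sh g) : ∃ c C : ℝ, 0 < c ∧ 0 < C ∧ ∀ u : ℝ, 1 ≤ u →
    |(∫ y in (0 : ℝ)..u, St (th g) y) - u| ≤
      C * (u * Real.exp (-(c * Real.sqrt (Real.log u)))) := by
  obtain ⟨c, C, hc, hC, h⟩ := Pool.Agent.TH73.J311.E_classical
  refine ⟨c, C + 4 * (8 * Real.exp (c ^ 2)), hc, by positivity, fun u hu => ?_⟩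
  have hu0 : 0 < u := by linarith
  have hL : 0 ≤ Real.log u := Real.log_nonneg hu
  have h1 := h (Real.log u) hL
  unfold Pool.Agent.TH896.RC.E at h1
  rw [Real.exp_log hu0] at h1
  have h2 := Chebyshev.abs_psi_sub_theta_le_sqrt_mul_log hu
  have h3 := int_th hg hu0.le
  have hx := exp_aux c hL
  have e1 : Real.exp (-(Real.log u / 2)) = u * Real.exp (-(Real.log u / 2)) / u := by field_simp
  have hsq : Real.sqrt u = u * Real.exp (-(Real.log u / 2)) := by
    have : Real.sqrt u = Real.exp (Real.log u / 2) := by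
      rw [Real.sqrt_eq_rpow, Real.rpow_def_of_pos hu0]; ring_nf
    rw [this]
    nth_rewrite 2 [← Real.exp_log hu0]
    rw [← Real.exp_add]; ring_nf
  have hs1 : 1 ≤ Real.sqrt u := by
    rw [Real.one_le_sqrt]; exact hu
  have h4 : Real.log (u + 3) ≤ Real.log u + 2 := by
    have h5 : Real.log (u + 3) ≤ Real.log (4 * u) := Real.log_le_log (by linarith) (by linarith)
    rw [Real.log_mul (by norm_num) hu0.ne'] at h5
    have h6 : Real.log 4 ≤ 2 := by
      rw [show (4 : ℝ) = 2 ^ 2 by norm_num, Real.log_pow]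
      have := Real.log_two_lt_d9
      push_cast
      linarith
    linarith
  have h5 : (Real.log u + 2) * Real.sqrt u ≤
      u * ((8 * Real.exp (c ^ 2)) * Real.exp (-(c * Real.sqrt (Real.log u)))) := by
    rw [hsq]
    calc (Real.log u + 2) * (u * Real.exp (-(Real.log u / 2))) =
        u * ((Real.log u + 2) * Real.exp (-(Real.log u / 2))) := by ring
      _ ≤ _ := mul_le_mul_of_nonneg_left hx hu0.le
  have h6 : 2 * Real.sqrt u * Real.log u ≤ 2 * ((Real.log u + 2) * Real.sqrt u) := by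
    nlinarith
  have h7 : 2 * Real.log (u + 3) ≤ 2 * ((Real.log u + 2) * Real.sqrt u) := by
    have : Real.log (u + 3) ≤ (Real.log u + 2) * Real.sqrt u := by
      calc Real.log (u + 3) ≤ (Real.log u + 2) * 1 := by linarith
        _ ≤ _ := mul_le_mul_of_nonneg_left hs1 (by linarith)
    linarith
  have h8 : |(∫ y in (0 : ℝ)..u, St (th g) y) - u| ≤
      |(∫ y in (0 : ℝ)..u, St (th g) y) - Chebyshev.theta u| +
      |Chebyshev.psi u - Chebyshev.theta u| + |Chebyshev.psi u - u| := by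
    have e : (∫ y in (0 : ℝ)..u, St (th g) y) - u =
        ((∫ y in (0 : ℝ)..u, St (th g) y) - Chebyshev.theta u) -
        (Chebyshev.psi u - Chebyshev.theta u) + (Chebyshev.psi u - u) := by ring
    rw [e]
    refine (abs_add_le _ _).trans (add_le_add_left ?_ _)
    exact abs_sub _ _
  calc |(∫ y in (0 : ℝ)..u, St (th g) y) - u| ≤ _ := h8
    _ ≤ 2 * ((Real.log u + 2) * Real.sqrt u) + 2 * ((Real.log u + 2) * Real.sqrt u) +
        C * (u * Real.exp (-(c * Real.sqrt (Real.log u)))) := by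
        gcongr
        · exact h3.trans h7
        · exact h2.trans h6
    _ ≤ _ := by
        have := h5
        nlinarith

/-- the prime number theorem in intervals -/
theorem pnt_sub {g : ℕ → ℕ} (hg : Sh g) : ∃ c C : ℝ, 0 < c ∧ 0 < C ∧ ∀ L u v : ℝ, 0 ≤ L →
    Real.exp L ≤ u → u ≤ v →
    |(∫ y in u..v, St (th g) y) - (v - u)| ≤ C * (v * Real.exp (-(c * Real.sqrt L))) := by
  obtain ⟨c, C, hc, hC, h⟩ := pnt_int hg
  refine ⟨c, 2 * C, hc, by positivity, fun L u v hL hu huv => ?_⟩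
  have h1L : 1 ≤ Real.exp L := Real.one_le_exp hL
  have hu1 : 1 ≤ u := h1L.trans hu
  have hv1 : 1 ≤ v := hu1.trans huv
  have key : ∀ w : ℝ, Real.exp L ≤ w → w ≤ v → |(∫ y in (0 : ℝ)..w, St (th g) y) - w| ≤
      C * (v * Real.exp (-(c * Real.sqrt L))) := by
    intro w hw hwv
    have hw1 : 1 ≤ w := h1L.trans hw
    refine (h w hw1).trans ?_
    have hlw : L ≤ Real.log w := (Real.le_log_iff_exp_le (by linarith)).2 hw
    have h2 : Real.exp (-(c * Real.sqrt (Real.log w))) ≤ Real.exp (-(c * Real.sqrt L)) := by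
      apply Real.exp_le_exp.2
      have := Real.sqrt_le_sqrt hlw
      nlinarith
    gcongr
  have k1 := key u hu huv
  have k2 := key v (hu.trans huv) le_rfl
  rw [← St_sub]
  have e : (∫ y in (0 : ℝ)..v, St (th g) y) - (∫ y in (0 : ℝ)..u, St (th g) y) - (v - u) =
      ((∫ y in (0 : ℝ)..v, St (th g) y) - v) - ((∫ y in (0 : ℝ)..u, St (th g) y) - u) := by ring
  rw [e]
  refine (abs_sub _ _).trans ?_
  linarith

/-- Brun-Titchmarsh for integers -/
theorem bt_sum {g : ℕ → ℕ} (hg : Sh g) : ∃ C : ℝ, 1 ≤ C ∧ ∀ a b : ℕ, a + 2 ≤ b →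
    ∑ k ∈ Finset.Ico a b, ind g k ≤ C * ((b - a : ℕ) : ℝ) / Real.log ((b - a : ℕ) : ℝ) := by
  obtain ⟨C, hC, h⟩ := Pool.Agent.Helper923.PPS.brun_titchmarsh
  refine ⟨C, hC, fun a b hab => ?_⟩
  rcases hg with hg | hg
  · refine le_trans (le_of_eq ?_) (h (a + 1) 1 (b - a) (by omega) (Or.inl rfl))
    rw [Finset.sum_Ico_eq_sum_range]
    unfold ind
    rw [Finset.sum_boole]
    congr 2
    ext k
    simp only [Finset.mem_filter]
    rw [hg, show a + k + 1 = a + 1 + k * 1 by ring]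
  · rcases Nat.eq_zero_or_pos a with rfl | ha
    · refine le_trans ?_ (h 0 1 (b - 0) (by omega) (Or.inl rfl))
      rw [Finset.sum_Ico_eq_sum_range]
      unfold ind
      rw [Finset.sum_boole]
      norm_cast
      refine Finset.card_le_card_of_injOn (fun k => k - 1) ?_ ?_
      · intro k hk
        rw [Finset.mem_coe, Finset.mem_filter, Finset.mem_range, hg] at hk
        rw [Finset.mem_coe, Finset.mem_filter, Finset.mem_range]
        simp only [zero_add, mul_one]
        have h2 : (0 + k - 1) = k - 1 := by omega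
        rw [h2] at hk
        exact ⟨by omega, hk.2⟩
      · intro x hx y hy hxy
        rw [Finset.mem_coe, Finset.mem_filter, Finset.mem_range, hg] at hx hy
        have h2 := hx.2.pos
        have h3 := hy.2.pos
        simp only at hxy
        omega
    · refine le_trans (le_of_eq ?_) (h (a - 1) 1 (b - a) (by omega) (Or.inl rfl))
      rw [Finset.sum_Ico_eq_sum_range]
      unfold ind
      rw [Finset.sum_boole]
      congr 2
      ext k
      simp only [Finset.mem_filter]
      rw [hg, show a + k - 1 = a - 1 + k * 1 by omega]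

/-- Brun-Titchmarsh for the integrals -/
theorem bt {g : ℕ → ℕ} (hg : Sh g) : ∃ C : ℝ, 1 ≤ C ∧ ∀ u v : ℝ, 0 ≤ u → 2 ≤ v - u →
    ∑ k ∈ Finset.Ico ⌊u⌋₊ ⌈v⌉₊, ind g k ≤ C * (v - u) / Real.log (v - u) ∧
    ∫ y in u..v, St (ind g) y ≤ C * (v - u) / Real.log (v - u) := by
  obtain ⟨C, hC, h⟩ := bt_sum hg
  refine ⟨2 * C, by linarith, fun u v hu huv => ?_⟩
  have hv0 : 0 ≤ v := by linarith
  have f1 := Nat.floor_le hu
  have f2 := Nat.le_ceil v
  have f3 := Nat.ceil_lt_add_one hv0
  have f4 := Nat.lt_floor_add_one u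
  have hab : ⌊u⌋₊ + 2 ≤ ⌈v⌉₊ := by
    have : ((⌊u⌋₊ + 2 : ℕ) : ℝ) ≤ (⌈v⌉₊ : ℝ) := by push_cast; linarith
    exact_mod_cast this
  have h1 := h _ _ hab
  rw [Nat.cast_sub (by omega)] at h1
  set N : ℝ := (⌈v⌉₊ : ℝ) - (⌊u⌋₊ : ℝ) with hN
  have hN1 : v - u ≤ N := by rw [hN]; linarith
  have hN2 : N ≤ 2 * (v - u) := by rw [hN]; linarith
  have hl : 0 < Real.log (v - u) := Real.log_pos (by linarith)
  have hl2 : Real.log (v - u) ≤ Real.log N := Real.log_le_log (by linarith) hN1
  have h2 : C * N / Real.log N ≤ 2 * C * (v - u) / Real.log (v - u) := by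
    apply div_le_div₀
    · have : 0 ≤ v - u := by linarith
      positivity
    · nlinarith
    · exact hl
    · exact hl2
  refine ⟨h1.trans h2, ?_⟩
  calc ∫ y in u..v, St (ind g) y ≤ ∫ y in (⌊u⌋₊ : ℝ)..(⌈v⌉₊ : ℝ), St (ind g) y :=
        St_mono (ind_nonneg g) f1 (by linarith) f2
    _ = _ := St_nat _ (by omega)
    _ ≤ _ := h1.trans h2

end Pool.Agent.TH915.SL
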